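import Pool.Agent.P.MP_d4a912_an.Gen.FA

set_option autoImplicit false

namespace Pool.Agent.P.MP_d4a912_an.Gen

open Filter Topology Set

variable {X : Type*} [NormedAddCommGroup X] [NormedSpace ℝ X]

/-- The error sequence. -/
noncomputable def eps (n : ℕ) : ℝ := 1 / (1000 * ((n : ℝ) + 1))

theorem eps_pos (n : ℕ) : 0 < eps n := by unfold eps; positivity

theorem eps_anti {n m : ℕ} (h : n ≤ m) : eps m ≤ eps n := by
  unfold eps
  have : (n : ℝ) ≤ m := by exact_mod_cast h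
  apply one_div_le_one_div_of_le
  · positivity
  · linarith

theorem eps_le (n : ℕ) : eps n ≤ 1 / 1000 := by
  have := eps_anti (Nat.zero_le n)
  unfold eps at this ⊢
  simpa using this

theorem eps_tendsto : Tendsto eps atTop (𝓝 0) := by
  have h := (tendsto_one_div_add_atTop_nhds_zero_nat (𝕜 := ℝ)).const_mul (1 / 1000)
  rw [mul_zero] at h
  refine h.congr (fun n => ?_)
  unfold eps
  field_simp

theorem annihilator_aux {Z : Type*} [NormedAddCommGroup Z] [NormedSpace ℝ Z]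
    (S : Set (Z →L[ℝ] ℝ)) (hcv : Convex ℝ S) (hcl : IsClosed S) (h0S : (0 : Z →L[ℝ] ℝ) ∈ S)
    (hsm : ∀ (a : ℝ), ∀ g ∈ S, a • g ∈ S) (F : Z →L[ℝ] ℝ) (hF : F ∉ S) :
    ∃ (Φ : (Z →L[ℝ] ℝ) →ₗ[ℝ] ℝ) (R : ℝ), 0 ≤ R ∧ (∀ g ∈ S, Φ g = 0) ∧ Φ F = 1 ∧
      (∀ G, |Φ G| ≤ R * ‖G‖) ∧
      ∀ (s : Finset (Z →L[ℝ] ℝ)) (ε : ℝ), 0 < ε → ∃ z : Z, ‖z‖ ≤ R ∧ ∀ f ∈ s, |f z - Φ f| < ε := by
  obtain ⟨L, w, h1, h2⟩ := geometric_hahn_banach_closed_point hcv hcl hF
  have h0 : 0 < w := by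
    have := h1 _ h0S
    rwa [map_zero] at this
  have hz : ∀ g ∈ S, L g = 0 := by
    intro g hg
    by_contra hne
    have := h1 _ (hsm (w / L g) g hg)
    rw [map_smul, smul_eq_mul, div_mul_cancel₀ _ hne] at this
    exact lt_irrefl _ this
  have hLF : L F ≠ 0 := by linarith
  let Φ : (Z →L[ℝ] ℝ) →L[ℝ] ℝ := (L F)⁻¹ • L
  refine ⟨Φ, ‖Φ‖, ContinuousLinearMap.opNorm_nonneg Φ, fun g hg => ?_, ?_,
    fun G => Φ.le_opNorm G, fun s ε hε => helly Φ s hε⟩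
  · show (L F)⁻¹ • L g = 0
    rw [hz g hg, smul_zero]
  · show (L F)⁻¹ • L F = 1
    rw [smul_eq_mul, inv_mul_cancel₀ hLF]

theorem closed_range_aux {A B : Type*} [NormedAddCommGroup A] [NormedSpace ℝ A] [CompleteSpace A]
    [NormedAddCommGroup B] [NormedSpace ℝ B] (i : A →ₗᵢ[ℝ] B) : IsClosed (Set.range i) :=
  i.isometry.isClosedEmbedding.isClosed_range

theorem exists_annihilator [CompleteSpace X] (F : (X →L[ℝ] ℝ) →L[ℝ] ℝ)
    (hF : F ∉ Set.range (NormedSpace.inclusionInDoubleDual ℝ X)) :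
    ∃ (Φ : ((X →L[ℝ] ℝ) →L[ℝ] ℝ) →ₗ[ℝ] ℝ) (R : ℝ), 0 ≤ R ∧
      (∀ x, Φ (NormedSpace.inclusionInDoubleDual ℝ X x) = 0) ∧ Φ F = 1 ∧
      (∀ G, |Φ G| ≤ R * ‖G‖) ∧
      ∀ (s : Finset ((X →L[ℝ] ℝ) →L[ℝ] ℝ)) (ε : ℝ), 0 < ε →
        ∃ z : X →L[ℝ] ℝ, ‖z‖ ≤ R ∧ ∀ f ∈ s, |f z - Φ f| < ε := by
  have hcl : IsClosed (Set.range (NormedSpace.inclusionInDoubleDual ℝ X)) := by
    exact closed_range_aux (A := X) (B := (X →L[ℝ] ℝ) →L[ℝ] ℝ)
      (NormedSpace.inclusionInDoubleDualLi ℝ (E := X))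
  have hcv : Convex ℝ (Set.range (NormedSpace.inclusionInDoubleDual ℝ X)) := by
    rintro _ ⟨x, rfl⟩ _ ⟨y, rfl⟩ a b _ _ _
    exact ⟨a • x + b • y, by rw [map_add, map_smul, map_smul]⟩
  obtain ⟨Φ, R, h1, h2, h3, h4, h5⟩ := annihilator_aux (Z := X →L[ℝ] ℝ) _ hcv hcl
    ⟨0, map_zero _⟩ (by rintro a _ ⟨x, rfl⟩; exact ⟨a • x, map_smul _ _ _⟩) F hF
  exact ⟨Φ, R, h1, fun x => h2 _ ⟨x, rfl⟩, h3, h4, h5⟩

/-- A norm attaining element of the bidual outside the space. -/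
theorem exists_attaining [CompleteSpace X]
    (hX : ¬ Function.Surjective (NormedSpace.inclusionInDoubleDual ℝ X)) :
    ∃ (F : (X →L[ℝ] ℝ) →L[ℝ] ℝ) (f : X →L[ℝ] ℝ),
      F ∉ Set.range (NormedSpace.inclusionInDoubleDual ℝ X) ∧ ‖F‖ ≤ 1 ∧ ‖f‖ ≤ 1 ∧ F f = 1 := by
  obtain ⟨F1, hF1⟩ : ∃ F1 : (X →L[ℝ] ℝ) →L[ℝ] ℝ, F1 ∉ Set.range (NormedSpace.inclusionInDoubleDual ℝ X) := by
    by_contra h
    push Not at h
    exact hX h
  obtain ⟨Φ, R, hn, hΦ0, hΦ1, hΦ2, -⟩ := exists_annihilator F1 hF1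
  obtain ⟨G, hG, f, hf, hGf⟩ := bishop_phelps (Z := X →L[ℝ] ℝ) F1 (ε := 1 / (2 * (R + 1))) (by positivity)
  have h1 : |Φ (F1 - G)| ≤ 1 / 2 := by
    have a1 := hΦ2 (F1 - G)
    have a2 := mul_le_mul_of_nonneg_left hG hn
    have a3 : R * (1 / (2 * (R + 1))) ≤ 1 / 2 := by
      rw [mul_one_div, div_le_div_iff₀ (by positivity) (by positivity)]
      linarith
    linarith
  have e1 : Φ (F1 - G) = Φ F1 - Φ G := Φ.map_sub F1 G
  rw [e1, hΦ1, abs_le] at h1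
  have hG0 : G ≠ 0 := by
    intro h
    rw [h, map_zero] at h1
    linarith [h1.2]
  have hGp : 0 < ‖G‖ := norm_pos_iff.mpr hG0
  refine ⟨‖G‖⁻¹ • G, f, ?_, ?_, hf, ?_⟩
  · rintro ⟨x, hx⟩
    have := hΦ0 x
    rw [hx, map_smul, smul_eq_mul] at this
    rcases mul_eq_zero.mp this with h | h
    · exact (inv_pos.mpr hGp).ne' h
    · linarith [h1.2]
  · have := norm_smul (‖G‖⁻¹) G
    rw [this, Real.norm_of_nonneg (inv_pos.mpr hGp).le, inv_mul_cancel₀ hGp.ne']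
  · rw [smul_apply, hGf, smul_eq_mul, inv_mul_cancel₀ hGp.ne']

theorem exists_direction (F : (X →L[ℝ] ℝ) →L[ℝ] ℝ) (f : X →L[ℝ] ℝ)
    (hF : F ∉ Set.range (NormedSpace.inclusionInDoubleDual ℝ X)) (hf : F f = 1) :
    ∃ (t : X →L[ℝ] ℝ) (e : X), F t = 0 ∧ t e = 1 := by
  have h0 : ∃ x, f x ≠ 0 := by
    by_contra h
    push Not at h
    have : f = 0 := ContinuousLinearMap.ext h
    rw [this, map_zero] at hf
    exact zero_ne_one hf
  obtain ⟨x, hx⟩ := h0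
  by_contra hc
  push Not at hc
  apply hF
  refine ⟨(f x)⁻¹ • x, ContinuousLinearMap.ext (fun g => ?_)⟩
  have h1 : F (g - F g • f) = 0 := by
    rw [map_sub, map_smul, hf, smul_eq_mul, mul_one, sub_self]
  have h2 : (g - F g • f) x = 0 := by
    by_contra h
    refine hc (g - F g • f) (((g - F g • f) x)⁻¹ • x) h1 ?_
    rw [map_smul, smul_eq_mul, inv_mul_cancel₀ h]
  rw [sub_apply, smul_apply, smul_eq_mul] at h2
  rw [NormedSpace.dual_def, map_smul, smul_eq_mul, inv_mul_eq_iff_eq_mul₀ hx]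
  linarith

/-- A system of vectors and functionals in the style of James, inside one face of the ball. -/
structure JS (X : Type*) [NormedAddCommGroup X] [NormedSpace ℝ X] where
  f0 : X →L[ℝ] ℝ
  t : X →L[ℝ] ℝ
  e0 : X
  he : ℕ → X →L[ℝ] ℝ
  ee : ℕ → X
  D : ℝ
  f0_le : ‖f0‖ ≤ 1
  t_e0 : t e0 = 1
  he_e0 : ∀ j, he j e0 = 0
  t_ee : ∀ k, t (ee k) = 0
  he_le : ∀ j, ‖he j‖ ≤ D
  ee_le : ∀ k, ‖ee k‖ ≤ 1 + eps k
  f0_ee : ∀ k, 1 - eps k ≤ f0 (ee k)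
  one : ∀ j k, j ≤ k → |he j (ee k) - 1| ≤ eps k
  zero : ∀ j k, k < j → |he j (ee k)| ≤ eps k

theorem exists_JS [CompleteSpace X]
    (hX : ¬ Function.Surjective (NormedSpace.inclusionInDoubleDual ℝ X)) : Nonempty (JS X) := by
  classical
  obtain ⟨F, f0, hF, hF1, hf0, hFf⟩ := exists_attaining hX
  obtain ⟨Φ, R, hn, hΦ0, hΦ1, -, hΦ3⟩ := exists_annihilator F hF
  obtain ⟨t, e0, hFt, hte⟩ := exists_direction F f0 hF hFf
  set D : ℝ := (R + 1) + (R + 1) * ‖e0‖ * ‖t‖ with hD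
  let P : ℕ × (X →L[ℝ] ℝ) × X → Prop := fun p =>
    ‖p.2.1‖ ≤ D ∧ F p.2.1 = 1 ∧ p.2.1 e0 = 0 ∧ t p.2.2 = 0 ∧ ‖p.2.2‖ ≤ 1 + eps p.1 ∧
      1 - eps p.1 ≤ f0 p.2.2 ∧ |p.2.1 p.2.2 - 1| ≤ eps p.1
  let r : ℕ × (X →L[ℝ] ℝ) × X → ℕ × (X →L[ℝ] ℝ) × X → Prop := fun p q =>
    p.1 < q.1 ∧ |q.2.1 p.2.2| ≤ eps q.1 ∧ |p.2.1 q.2.2 - 1| ≤ eps q.1
  have step : ∀ s : Finset (ℕ × (X →L[ℝ] ℝ) × X), (∀ p ∈ s, P p) → ∃ q, P q ∧ ∀ p ∈ s, r p q := by
    intro s hs
    set n : ℕ := s.sup (fun p => p.1) + 1 with hn'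
    have hε := eps_pos n
    have hε1 := eps_le n
    obtain ⟨h1, hh1, hh2⟩ := hΦ3
      (insert F (s.image (fun p => NormedSpace.inclusionInDoubleDual ℝ X p.2.2)))
      (eps n / 3) (by positivity)
    have a1 : |F h1 - 1| < eps n / 3 := by
      have := hh2 F (Finset.mem_insert_self _ _)
      rwa [hΦ1] at this
    have a2 : ∀ p ∈ s, |h1 p.2.2| < eps n / 3 := by
      intro p hp
      have := hh2 _ (Finset.mem_insert_of_mem (Finset.mem_image_of_mem _ hp))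
      rwa [hΦ0, sub_zero, NormedSpace.dual_def] at this
    set h2 : X →L[ℝ] ℝ := h1 + (1 - F h1) • f0 with hh2'
    have b1 : ‖h2‖ ≤ R + 1 := by
      refine le_trans (norm_add_le _ _) (add_le_add hh1 ?_)
      rw [norm_smul, Real.norm_eq_abs, abs_sub_comm]
      nlinarith [abs_nonneg (F h1 - 1), norm_nonneg f0]
    set h3 : X →L[ℝ] ℝ := h2 - h2 e0 • t with hh3
    have c1 : ‖h3‖ ≤ D := by
      refine le_trans (norm_sub_le _ _) (add_le_add b1 ?_)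
      rw [norm_smul]
      refine mul_le_mul_of_nonneg_right ?_ (norm_nonneg t)
      exact le_trans (h2.le_opNorm e0) (mul_le_mul_of_nonneg_right b1 (norm_nonneg e0))
    have c2 : F h3 = 1 := by
      rw [hh3, map_sub, map_smul, hFt, smul_zero, sub_zero, hh2', map_add, map_smul, hFf,
        smul_eq_mul]
      ring
    have c3 : h3 e0 = 0 := by
      rw [hh3, sub_apply, smul_apply, hte, smul_eq_mul, mul_one, sub_self]
    have c4 : ∀ p ∈ s, |h3 p.2.2| ≤ eps n := by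
      intro p hp
      obtain ⟨-, -, -, d1, d2, -, -⟩ := hs p hp
      rw [hh3, sub_apply, smul_apply, d1, smul_zero, sub_zero, hh2', add_apply, smul_apply,
        smul_eq_mul]
      have d3 : |f0 p.2.2| ≤ 2 := by
        have := f0.le_opNorm p.2.2
        rw [Real.norm_eq_abs] at this
        have := eps_le p.1
        nlinarith [norm_nonneg f0, norm_nonneg p.2.2]
      refine le_trans (abs_add_le _ _) ?_
      rw [abs_mul, abs_sub_comm]
      have := a2 p hp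
      nlinarith [abs_nonneg (F h1 - 1), abs_nonneg (f0 p.2.2)]
    set η : ℝ := eps n / (1 + ‖e0‖) with hη
    have hηpos : 0 < η := by positivity
    have hη1 : η + η * ‖e0‖ = eps n := by
      rw [hη]; field_simp
    have hη2 : 0 ≤ η * ‖e0‖ := by positivity
    obtain ⟨e1, he1, he2⟩ := helly F
      (insert f0 (insert t (insert h3 (s.image (fun p => p.2.1))))) hηpos
    have g1 : |f0 e1 - 1| < η := by
      have := he2 f0 (Finset.mem_insert_self _ _)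
      rwa [hFf] at this
    have g2 : |t e1| < η := by
      have := he2 t (Finset.mem_insert_of_mem (Finset.mem_insert_self _ _))
      rwa [hFt, sub_zero] at this
    have g3 : |h3 e1 - 1| < η := by
      have := he2 h3
        (Finset.mem_insert_of_mem (Finset.mem_insert_of_mem (Finset.mem_insert_self _ _)))
      rwa [c2] at this
    have g4 : ∀ p ∈ s, |p.2.1 e1 - 1| < η := by
      intro p hp
      have := he2 p.2.1 (Finset.mem_insert_of_mem (Finset.mem_insert_of_mem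
        (Finset.mem_insert_of_mem (Finset.mem_image_of_mem (fun p => p.2.1) hp))))
      rwa [(hs p hp).2.1] at this
    have g5 : ‖t e1 • e0‖ ≤ η * ‖e0‖ := by
      rw [norm_smul, Real.norm_eq_abs]
      exact mul_le_mul_of_nonneg_right g2.le (norm_nonneg _)
    refine ⟨(n, h3, e1 - t e1 • e0), ⟨c1, c2, c3, ?_, ?_, ?_, ?_⟩, fun p hp => ⟨?_, c4 p hp, ?_⟩⟩
    · show t (e1 - t e1 • e0) = 0
      rw [map_sub, map_smul, hte, smul_eq_mul, mul_one, sub_self]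
    · show ‖e1 - t e1 • e0‖ ≤ 1 + eps n
      have := norm_sub_le e1 (t e1 • e0)
      linarith
    · show 1 - eps n ≤ f0 (e1 - t e1 • e0)
      have k1 := f0.le_opNorm (t e1 • e0)
      have k2 := mul_le_mul hf0 g5 (norm_nonneg _) zero_le_one
      rw [Real.norm_eq_abs] at k1
      rw [map_sub]
      linarith [le_abs_self (f0 (t e1 • e0)), (abs_lt.mp g1).1]
    · show |h3 (e1 - t e1 • e0) - 1| ≤ eps n
      rw [map_sub, map_smul, c3, smul_zero, sub_zero]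
      linarith
    · show p.1 < n
      have : p.1 ≤ s.sup (fun p => p.1) := Finset.le_sup (f := fun p => p.1) hp
      omega
    · show |p.2.1 (e1 - t e1 • e0) - 1| ≤ eps n
      rw [map_sub, map_smul, (hs p hp).2.2.1, smul_zero, sub_zero]
      linarith [g4 p hp]
  obtain ⟨q, hq, hr⟩ := exists_seq_of_forall_finset_exists P r step
  have hmono : StrictMono (fun n => (q n).1) := fun a b hab => (hr a b hab).1
  have hle : ∀ n, eps (q n).1 ≤ eps n := fun n => eps_anti (hmono.id_le n)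
  refine ⟨⟨f0, t, e0, fun j => (q j).2.1, fun k => (q k).2.2, D, hf0, hte,
    fun j => (hq j).2.2.1, fun k => (hq k).2.2.2.1, fun j => (hq j).1, fun k => ?_, fun k => ?_,
    fun j k hjk => ?_, fun j k hjk => ?_⟩⟩
  · linarith [(hq k).2.2.2.2.1, hle k]
  · linarith [(hq k).2.2.2.2.2.1, hle k]
  · rcases eq_or_lt_of_le hjk with h | h
    · subst h
      exact le_trans (hq j).2.2.2.2.2.2 (hle j)
    · exact le_trans (hr j k h).2.2 (hle k)
  · exact le_trans (hr k j hjk).2.1 (le_trans (hle j) (eps_anti hjk.le))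

end Pool.Agent.P.MP_d4a912_an.Gen
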