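import Pool.Agent.P.MP_d4a912_an.Gen.Rot
import Pool.Agent.P.MP_d4a912_an.Gen.James

set_option autoImplicit false

namespace Pool.Agent.P.MP_d4a912_an.Gen

open Filter Topology

universe u

theorem cr_scale_dual {Z : Type*} [NormedAddCommGroup Z] [NormedSpace ℝ Z] (z : Z)
    (h : ∀ x : ℕ → (Z →L[ℝ] ℝ), (∀ n, ‖x n‖ = 1) →
      Tendsto (fun p : ℕ × ℕ => ‖x p.1 + x p.2‖) atTop (𝓝 2) → CauchySeq (fun n => x n z))
    (y : ℕ → (Z →L[ℝ] ℝ)) (s : ℝ) (hs : 0 < s) (h1 : Tendsto (fun n => ‖y n‖) atTop (𝓝 s))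
    (h2 : Tendsto (fun p : ℕ × ℕ => ‖y p.1 + y p.2‖) atTop (𝓝 (2 * s))) :
    CauchySeq (fun n => y n z) :=
  cr_scale (NormedSpace.inclusionInDoubleDual ℝ Z z) h y s hs h1 h2

/-- The indicator of the order relation. -/
noncomputable def ind (j k : ℕ) : ℝ := if j ≤ k then 1 else 0

namespace JS

variable {X : Type u} [NormedAddCommGroup X] [NormedSpace ℝ X] (T : JS X)

theorem he_ee (j k : ℕ) : |T.he j (T.ee k) - ind j k| ≤ eps k := by
  unfold ind
  split_ifs with h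
  · exact T.one j k h
  · rw [sub_zero]; exact T.zero j k (by omega)

/-- The vertex functionals. -/
noncomputable def gg (a : ℕ) : X →L[ℝ] ℝ := T.he (2 * a + 1) - T.he (2 * a + 2)

/-- The edge functionals. -/
noncomputable def ff (g : J) : X →L[ℝ] ℝ :=
  (4 / 3 : ℝ) • (T.gg g.1 + if g.1 = g.2 then 0 else T.gg g.2)
    + (2 / 3 : ℝ) • T.he (2 * (Nat.pair g.1 g.2 + 1))

theorem ff_apply (g : J) (x : X) : T.ff g x =
    4 / 3 * (T.gg g.1 x + if g.1 = g.2 then 0 else T.gg g.2 x)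
      + 2 / 3 * T.he (2 * (Nat.pair g.1 g.2 + 1)) x := by
  unfold ff
  split_ifs <;> simp [mul_add]

theorem gg_apply (a : ℕ) (x : X) : T.gg a x = T.he (2 * a + 1) x - T.he (2 * a + 2) x := rfl

theorem he_abs (j : ℕ) (x : X) : |T.he j x| ≤ T.D * ‖x‖ :=
  le_trans ((T.he j).le_opNorm x) (mul_le_mul_of_nonneg_right (T.he_le j) (norm_nonneg x))

/-- The renorming data attached to the system. -/
noncomputable def sys : Sys X where
  t := T.t
  e0 := T.e0
  f := T.ff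
  C := 6 * T.D
  C_nonneg := by linarith [le_trans (norm_nonneg _) (T.he_le 0)]
  t_e0 := T.t_e0
  f_e0 g := by simp [ff_apply, gg_apply, T.he_e0]
  f_le g x := by
    rw [ff_apply, gg_apply, gg_apply]
    have h1 := abs_le.mp (T.he_abs (2 * g.1 + 1) x)
    have h2 := abs_le.mp (T.he_abs (2 * g.1 + 2) x)
    have h3 := abs_le.mp (T.he_abs (2 * g.2 + 1) x)
    have h4 := abs_le.mp (T.he_abs (2 * g.2 + 2) x)
    have h5 := abs_le.mp (T.he_abs (2 * (Nat.pair g.1 g.2 + 1)) x)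
    rw [abs_le]
    split_ifs <;> constructor <;> linarith [h1.1, h1.2, h2.1, h2.2, h3.1, h3.2, h4.1, h4.2, h5.1, h5.2]

/-- The part of the approximating vectors in the hyperplane. -/
noncomputable def vv (n k : ℕ) : X := (1 / 2 : ℝ) • (T.ee (2 * n + 1) + T.ee (2 * k))

/-- The approximating vectors. -/
noncomputable def uu (n k : ℕ) : X := T.vv n k + ((-1) ^ n / 2 : ℝ) • T.e0

theorem apply_uu (f : X →L[ℝ] ℝ) (n k : ℕ) :
    f (T.uu n k) = (f (T.ee (2 * n + 1)) + f (T.ee (2 * k))) / 2 + (-1) ^ n / 2 * f T.e0 := by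
  unfold uu vv
  rw [map_add, map_smul, map_smul, map_add, smul_eq_mul, smul_eq_mul]
  ring

theorem t_uu (n k : ℕ) : T.t (T.uu n k) = (-1) ^ n / 2 := by
  rw [apply_uu, T.t_ee, T.t_ee, T.t_e0]; ring

theorem t_uu_sq (n k : ℕ) : (T.t (T.uu n k)) ^ 2 = 1 / 4 := by
  rw [t_uu, div_pow, ← pow_mul, mul_comm n 2, pow_mul]
  norm_num

theorem pr_uu (n k : ℕ) : T.sys.pr (T.uu n k) = T.vv n k := by
  show T.uu n k - T.t (T.uu n k) • T.e0 = T.vv n k
  rw [t_uu]
  unfold uu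
  abel

theorem vv_le (n k : ℕ) (h : n ≤ k) : ‖T.vv n k‖ ≤ 1 + eps n := by
  unfold vv
  rw [norm_smul, Real.norm_of_nonneg (by norm_num)]
  have h1 := norm_add_le (T.ee (2 * n + 1)) (T.ee (2 * k))
  have h2 := T.ee_le (2 * n + 1)
  have h3 := T.ee_le (2 * k)
  have h4 : eps (2 * n + 1) ≤ eps n := eps_anti (by omega)
  have h5 : eps (2 * k) ≤ eps n := eps_anti (by omega)
  linarith

theorem f0_vv (n k : ℕ) (h : n ≤ k) : 1 - eps n ≤ T.f0 (T.vv n k) := by
  unfold vv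
  rw [map_smul, map_add, smul_eq_mul]
  have h2 := T.f0_ee (2 * n + 1)
  have h3 := T.f0_ee (2 * k)
  have h4 : eps (2 * n + 1) ≤ eps n := eps_anti (by omega)
  have h5 : eps (2 * k) ≤ eps n := eps_anti (by omega)
  linarith

theorem he_uu (j n k : ℕ) (h : n ≤ k) :
    |T.he j (T.uu n k) - (ind j (2 * n + 1) + ind j (2 * k)) / 2| ≤ eps n := by
  rw [apply_uu, T.he_e0]
  have h2 := abs_le.mp (T.he_ee j (2 * n + 1))
  have h3 := abs_le.mp (T.he_ee j (2 * k))
  have h4 : eps (2 * n + 1) ≤ eps n := eps_anti (by omega)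
  have h5 : eps (2 * k) ≤ eps n := eps_anti (by omega)
  rw [abs_le]
  constructor <;> linarith [h2.1, h2.2, h3.1, h3.2]

theorem gg_uu (a n k : ℕ) (h : n ≤ k) :
    |T.gg a (T.uu n k) - (if a = n then 1 / 2 else 0)| ≤ 2 * eps n := by
  rw [gg_apply]
  have h1 := abs_le.mp (T.he_uu (2 * a + 1) n k h)
  have h2 := abs_le.mp (T.he_uu (2 * a + 2) n k h)
  have e1 : ind (2 * a + 1) (2 * k) = ind (2 * a + 2) (2 * k) := by
    unfold ind
    split_ifs <;> first | rfl | omega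
  have e2 : ind (2 * a + 1) (2 * n + 1) - ind (2 * a + 2) (2 * n + 1)
      = 2 * (if a = n then 1 / 2 else 0) := by
    unfold ind
    split_ifs <;> first | omega | norm_num
  rw [abs_le]
  constructor <;> linarith [h1.1, h1.2, h2.1, h2.2]

theorem ff_uu (g : J) (n k : ℕ) (h : n ≤ k) :
    |T.ff g (T.uu n k) - ((if g.1 = n ∨ g.2 = n then 2 / 3 else 0)
      + (ind (Nat.pair g.1 g.2 + 1) n + ind (Nat.pair g.1 g.2 + 1) k) / 3)| ≤ 6 * eps n := by
  rw [ff_apply]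
  have h1 := abs_le.mp (T.gg_uu g.1 n k h)
  have h2 := abs_le.mp (T.gg_uu g.2 n k h)
  have h3 := abs_le.mp (T.he_uu (2 * (Nat.pair g.1 g.2 + 1)) n k h)
  have e1 : ind (2 * (Nat.pair g.1 g.2 + 1)) (2 * n + 1) = ind (Nat.pair g.1 g.2 + 1) n := by
    unfold ind
    split_ifs <;> first | rfl | omega
  have e2 : ind (2 * (Nat.pair g.1 g.2 + 1)) (2 * k) = ind (Nat.pair g.1 g.2 + 1) k := by
    unfold ind
    split_ifs <;> first | rfl | omega
  rw [e1, e2] at h3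
  have h0 := eps_pos n
  rw [abs_le]
  split_ifs at h1 h2 ⊢ <;>
    first
    | omega
    | (constructor <;> linarith [h1.1, h1.2, h2.1, h2.2, h3.1, h3.2])

theorem ind_mem (j k : ℕ) : 0 ≤ ind j k ∧ ind j k ≤ 1 := by
  unfold ind; split_ifs <;> norm_num

theorem ind_zero {j k : ℕ} (h : k < j) : ind j k = 0 := if_neg (by omega)

theorem ind_one {j k : ℕ} (h : j ≤ k) : ind j k = 1 := if_pos h

theorem star_lt (g : J) (n : ℕ) (hg : g.1 = n ∨ g.2 = n) : n < Nat.pair g.1 g.2 + 1 := by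
  have h1 := Nat.left_le_pair g.1 g.2
  have h2 := Nat.right_le_pair g.1 g.2
  omega

theorem ff_le (g : J) (n k : ℕ) (h : n ≤ k) : |T.ff g (T.uu n k)| ≤ 1 + 6 * eps n := by
  have h1 := abs_le.mp (T.ff_uu g n k h)
  have h2 := ind_mem (Nat.pair g.1 g.2 + 1) n
  have h3 := ind_mem (Nat.pair g.1 g.2 + 1) k
  rw [abs_le]
  by_cases hg : g.1 = n ∨ g.2 = n
  · rw [if_pos hg, ind_zero (star_lt g n hg)] at h1
    constructor <;> linarith [h1.1, h1.2, h3.1, h3.2]
  · rw [if_neg hg] at h1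
    constructor <;> linarith [h1.1, h1.2, h2.1, h2.2, h3.1, h3.2]

theorem ff_le' (g : J) (n k : ℕ) (h : n ≤ k) (hg : ¬ (g.1 = n ∨ g.2 = n)) :
    |T.ff g (T.uu n k)| ≤ 2 / 3 + 6 * eps n := by
  have h1 := abs_le.mp (T.ff_uu g n k h)
  have h2 := ind_mem (Nat.pair g.1 g.2 + 1) n
  have h3 := ind_mem (Nat.pair g.1 g.2 + 1) k
  rw [abs_le]
  rw [if_neg hg] at h1
  constructor <;> linarith [h1.1, h1.2, h2.1, h2.2, h3.1, h3.2]

theorem ff_ge (g : J) (n k : ℕ) (h : n ≤ k) (hg : g.1 = n ∨ g.2 = n)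
    (hk : Nat.pair g.1 g.2 + 1 ≤ k) : 1 - 6 * eps n ≤ T.ff g (T.uu n k) := by
  have h1 := abs_le.mp (T.ff_uu g n k h)
  rw [if_pos hg, ind_zero (star_lt g n hg), ind_one hk] at h1
  linarith [h1.1]

theorem b_uu (n k : ℕ) (h : n ≤ k) : T.sys.b (T.uu n k) ≤ 2 / 3 + 6 * eps n := by
  apply Sys.b_le
  rw [Filter.eventually_cofinite]
  refine ((Set.finite_Iic k).prod (Set.finite_Iic k)).subset ?_
  intro g hg
  by_contra hc
  apply hg
  have h1 := Nat.left_le_pair g.1 g.2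
  have h2 := Nat.right_le_pair g.1 g.2
  have h3 : k < Nat.pair g.1 g.2 + 1 := by
    by_contra h4
    exact hc ⟨show g.1 ≤ k by omega, show g.2 ≤ k by omega⟩
  have h4 := abs_le.mp (T.ff_uu g n k h)
  rw [ind_zero h3, ind_zero (lt_of_le_of_lt h h3)] at h4
  show |T.ff g (T.uu n k)| ≤ _
  rw [abs_le]
  split_ifs at h4 <;> constructor <;> linarith [h4.1, h4.2]

theorem Q_uu (o : Option (J × J)) (n k : ℕ) (h : n ≤ k) :
    T.sys.Q o (T.uu n k) ≤ 1 + 400 * eps n := by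
  have h0 := eps_pos n
  have h1 := eps_le n
  have ht : (T.sys.t (T.uu n k)) ^ 2 = 1 / 4 := T.t_uu_sq n k
  rcases o with _ | ⟨g, g'⟩
  · simp only [Sys.Q]
    have a1 := T.b_uu n k h
    have a2 := T.sys.b_nonneg (T.uu n k)
    rw [ht]
    nlinarith
  · simp only [Sys.Q]
    rw [ht]
    have hc := cc_pos g g'
    have hc' := cc_le g g'
    have b0 : ∀ i : J, (T.sys.f i (T.uu n k)) ^ 2 ≤ 1 + 13 * eps n := by
      intro i
      have := pow_le_pow_left₀ (abs_nonneg _) (T.ff_le i n k h) 2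
      rw [sq_abs] at this
      show (T.ff i (T.uu n k)) ^ 2 ≤ _
      nlinarith
    have b1 : ∀ i : J, ¬ (i.1 = n ∨ i.2 = n) → (T.sys.f i (T.uu n k)) ^ 2 ≤ 46 / 100 := by
      intro i hi
      have := pow_le_pow_left₀ (abs_nonneg _) (T.ff_le' i n k h hi) 2
      rw [sq_abs] at this
      show (T.ff i (T.uu n k)) ^ 2 ≤ _
      nlinarith
    have p1 := sq_nonneg (T.sys.f g (T.uu n k))
    have p2 := sq_nonneg (T.sys.f g' (T.uu n k))
    have c1 := b0 g
    have c2 := b0 g'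
    by_cases hg : g.1 = n ∨ g.2 = n
    · by_cases hh : g'.1 = n ∨ g'.2 = n
      · have hmx : n ≤ mx g g' := by
          unfold mx
          split_ifs <;> omega
        have hmx' : (n : ℝ) ≤ mx g g' := by exact_mod_cast hmx
        have hc2 : cc g g' ≤ 250 * eps n := by
          have e : 250 * eps n = 1 / (4 * ((n : ℝ) + 1)) := by
            unfold eps; field_simp; norm_num
          rw [e]
          unfold cc
          apply one_div_le_one_div_of_le
          · positivity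
          · linarith
        nlinarith
      · have := b1 g' hh
        nlinarith
    · have := b1 g hg
      nlinarith

theorem N_uu (n k : ℕ) (h : n ≤ k) : T.sys.N (T.uu n k) ≤ Real.sqrt (2 + 403 * eps n) := by
  apply Real.sqrt_le_sqrt
  have h1 := T.sys.M_le _ _ (fun o => T.Q_uu o n k h)
  have h2 := pow_le_pow_left₀ (norm_nonneg _) (T.vv_le n k h) 2
  have h0 := eps_pos n
  have h3 := eps_le n
  rw [pr_uu]
  nlinarith

theorem ee_cauchy (hX : IsWCR X) (f : X →L[ℝ] ℝ) : CauchySeq (fun n => f (T.ee n)) := by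
  refine (hX.quad T.ee ?_).2 f
  intro η hη
  obtain ⟨N, hN⟩ := (eps_tendsto.eventually (gt_mem_nhds (show 0 < η / 16 by positivity))).exists
  refine ⟨N, fun n hn m hm => ?_⟩
  have a1 : ‖T.ee n‖ ≤ 1 + eps N := by linarith [T.ee_le n, eps_anti hn]
  have a2 : ‖T.ee m‖ ≤ 1 + eps N := by linarith [T.ee_le m, eps_anti hm]
  have a3 : 2 - 2 * eps N ≤ ‖T.ee n + T.ee m‖ := by
    have b1 := T.f0.le_opNorm (T.ee n + T.ee m)
    have b2 := mul_le_mul_of_nonneg_right T.f0_le (norm_nonneg (T.ee n + T.ee m))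
    have b3 := le_abs_self (T.f0 (T.ee n + T.ee m))
    rw [Real.norm_eq_abs] at b1
    rw [map_add] at b1 b3
    linarith [T.f0_ee n, T.f0_ee m, eps_anti hn, eps_anti hm]
  have a4 := pow_le_pow_left₀ (norm_nonneg _) a1 2
  have a5 := pow_le_pow_left₀ (norm_nonneg _) a2 2
  have a6 := pow_le_pow_left₀ (by linarith [eps_le N]) a3 2
  nlinarith

/-- The norming functionals. -/
noncomputable def psi (g : J) : T.sys.Ren →L[ℝ] ℝ :=
  (T.ff g + (T.f0 - T.f0 T.e0 • T.t)).comp (T.sys.toXL : T.sys.Ren →L[ℝ] X)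

theorem psi_apply (g : J) (x : T.sys.Ren) :
    T.psi g x = T.ff g (T.sys.toX x) + T.f0 (T.sys.pr (T.sys.toX x)) := by
  show T.ff g (T.sys.toX x) + (T.f0 (T.sys.toX x) - T.f0 T.e0 * T.t (T.sys.toX x))
    = T.ff g (T.sys.toX x) + T.f0 (T.sys.toX x - T.t (T.sys.toX x) • T.e0)
  rw [map_sub, map_smul, smul_eq_mul]
  ring

theorem psi_norm (g : J) : ‖T.psi g‖ ≤ Real.sqrt 2 := by
  refine ContinuousLinearMap.opNorm_le_bound _ (Real.sqrt_nonneg _) (fun x => ?_)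
  rw [psi_apply, Sys.norm_Ren, Real.norm_eq_abs]
  set y := T.sys.toX x
  have h1 : (T.ff g y) ^ 2 ≤ T.sys.M y := T.sys.f_sq_le y g
  have h2 : (T.f0 (T.sys.pr y)) ^ 2 ≤ ‖T.sys.pr y‖ ^ 2 := by
    rw [← sq_abs]
    refine pow_le_pow_left₀ (abs_nonneg _) ?_ 2
    have b1 := T.f0.le_opNorm (T.sys.pr y)
    have b2 := mul_le_mul_of_nonneg_right T.f0_le (norm_nonneg (T.sys.pr y))
    rw [Real.norm_eq_abs] at b1
    linarith
  unfold Sys.N
  rw [← Real.sqrt_mul (by norm_num)]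
  apply Real.abs_le_sqrt
  nlinarith [sq_nonneg (T.ff g y - T.f0 (T.sys.pr y))]

theorem exists_F (hX : IsWCR X) (n : ℕ) :
    ∃ F : (T.sys.Ren →L[ℝ] ℝ) →L[ℝ] ℝ, ‖F‖ ≤ Real.sqrt (2 + 403 * eps n) ∧
      F (T.t.comp (T.sys.toXL : T.sys.Ren →L[ℝ] X)) = (-1) ^ n / 2 ∧
      ∀ g : J, g.1 = n ∨ g.2 = n → 2 - 7 * eps n ≤ F (T.psi g) := by
  let u : ℕ → T.sys.Ren := fun k => T.sys.toX.symm (T.uu n k)
  obtain ⟨F, hF1, hF2⟩ := exists_limit u (Real.sqrt (2 + 403 * eps n)) (Real.sqrt_nonneg _)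
    (by
      filter_upwards [eventually_ge_atTop n] with k hk
      exact T.N_uu n k hk)
    (by
      intro f
      let g : X →L[ℝ] ℝ := f.comp (T.sys.toXL.symm : X →L[ℝ] T.sys.Ren)
      have e : (fun k => f (u k)) = fun k =>
          (g (T.ee (2 * n + 1)) + g (T.ee (2 * k))) / 2 + (-1) ^ n / 2 * g T.e0 := by
        ext k
        exact T.apply_uu g n k
      rw [e]
      obtain ⟨a, ha⟩ := cauchySeq_tendsto_of_complete (T.ee_cauchy hX g)
      have h2 : Tendsto (fun k : ℕ => 2 * k) atTop atTop :=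
        tendsto_atTop_mono (fun k => by show k ≤ 2 * k; omega) tendsto_id
      exact ((((ha.comp h2).const_add _).div_const 2).add_const _).cauchySeq)
  refine ⟨F, hF1, ?_, fun g hg => ?_⟩
  · refine tendsto_nhds_unique (hF2 _) ?_
    exact tendsto_const_nhds.congr (fun k => (T.t_uu n k).symm)
  · refine ge_of_tendsto (hF2 _) ?_
    filter_upwards [eventually_ge_atTop n, eventually_ge_atTop (Nat.pair g.1 g.2 + 1)]
      with k hk hk'
    rw [psi_apply]
    have e : T.sys.toX (u k) = T.uu n k := rfl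
    rw [e, pr_uu]
    linarith [T.ff_ge g n k hk hg hk', T.f0_vv n k hk]

theorem not_wstar (hX : IsWCR X) : ¬ BidualIsWStarCR T.sys.Ren := by
  intro hcon
  choose F hF1 hF2 hF3 using T.exists_F hX
  have hs : 0 < Real.sqrt 2 := by positivity
  have hs2 : Real.sqrt 2 * Real.sqrt 2 = 2 := Real.mul_self_sqrt (by norm_num)
  have happ : ∀ (G : (T.sys.Ren →L[ℝ] ℝ) →L[ℝ] ℝ) (g : J), G (T.psi g) / Real.sqrt 2 ≤ ‖G‖ := by
    intro G g
    rw [div_le_iff₀ hs]
    refine le_trans (le_abs_self _) (le_trans (G.le_opNorm (T.psi g)) ?_)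
    exact mul_le_mul_of_nonneg_left (T.psi_norm g) (ContinuousLinearMap.opNorm_nonneg G)
  have hup : Tendsto (fun n => Real.sqrt (2 + 403 * eps n)) atTop (𝓝 (Real.sqrt 2)) := by
    have := ((eps_tendsto.const_mul 403).const_add 2).sqrt
    rwa [mul_zero, add_zero] at this
  have hlo : Tendsto (fun n => (2 - 7 * eps n) / Real.sqrt 2) atTop (𝓝 (Real.sqrt 2)) := by
    have := ((eps_tendsto.const_mul 7).const_sub 2).div_const (Real.sqrt 2)
    rwa [mul_zero, sub_zero, show 2 / Real.sqrt 2 = Real.sqrt 2 by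
      rw [div_eq_iff hs.ne', hs2]] at this
  have hnorm : Tendsto (fun n => ‖F n‖) atTop (𝓝 (Real.sqrt 2)) :=
    tendsto_of_tendsto_of_tendsto_of_le_of_le hlo hup
      (fun n => le_trans (div_le_div_of_nonneg_right (hF3 n (n, n) (Or.inl rfl)) hs.le)
        (happ (F n) (n, n))) hF1
  have hsum : Tendsto (fun p : ℕ × ℕ => ‖F p.1 + F p.2‖) atTop (𝓝 (2 * Real.sqrt 2)) := by
    have a1 : Tendsto (fun p : ℕ × ℕ => (2 - 7 * eps p.1) / Real.sqrt 2
        + (2 - 7 * eps p.2) / Real.sqrt 2) atTop (𝓝 (Real.sqrt 2 + Real.sqrt 2)) := by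
      rw [← prod_atTop_atTop_eq]
      exact (hlo.comp tendsto_fst).add (hlo.comp tendsto_snd)
    have a2 : Tendsto (fun p : ℕ × ℕ => ‖F p.1‖ + ‖F p.2‖) atTop
        (𝓝 (Real.sqrt 2 + Real.sqrt 2)) := by
      rw [← prod_atTop_atTop_eq]
      exact (hnorm.comp tendsto_fst).add (hnorm.comp tendsto_snd)
    rw [← two_mul] at a1 a2
    refine tendsto_of_tendsto_of_tendsto_of_le_of_le a1 a2 (fun p => ?_)
      (fun p => norm_add_le (F p.1) (F p.2))
    refine le_trans ?_ (happ (F p.1 + F p.2) p)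
    rw [add_apply, ← add_div]
    exact div_le_div_of_nonneg_right
      (add_le_add (hF3 p.1 p (Or.inl rfl)) (hF3 p.2 p (Or.inr rfl))) hs.le
  have hc := cr_scale_dual (Z := T.sys.Ren →L[ℝ] ℝ)
    (T.t.comp (T.sys.toXL : T.sys.Ren →L[ℝ] X)) (fun x h1 h2 => hcon x h1 h2 _) F _ hs hnorm hsum
  obtain ⟨N, hN⟩ := Metric.cauchySeq_iff.mp hc (1 / 2) (by norm_num)
  have h1 := hN (2 * N) (by omega) (2 * N + 1) (by omega)
  rw [Real.dist_eq, hF2, hF2, pow_succ, pow_mul] at h1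
  norm_num at h1

end JS

end Pool.Agent.P.MP_d4a912_an.Gen
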