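import Mathlib

set_option autoImplicit false

namespace Pool.Agent.P.MP_d4a912_an.Gen

open Filter Topology

universe u

/-- The norm of `Y` is weakly Cauchy rotund. -/
def IsWCR (Y : Type u) [NormedAddCommGroup Y] [NormedSpace ℝ Y] : Prop :=
  ∀ x : ℕ → Y, (∀ n, ‖x n‖ = 1) →
    Tendsto (fun p : ℕ × ℕ => ‖x p.1 + x p.2‖) atTop (𝓝 2) →
    ∀ f : Y →L[ℝ] ℝ, CauchySeq (fun n => f (x n))

/-- The bidual norm of `Y` is weak-star Cauchy rotund. -/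
def BidualIsWStarCR (Y : Type u) [NormedAddCommGroup Y] [NormedSpace ℝ Y] : Prop :=
  ∀ F : ℕ → ((Y →L[ℝ] ℝ) →L[ℝ] ℝ), (∀ n, ‖F n‖ = 1) →
    Tendsto (fun p : ℕ × ℕ => ‖F p.1 + F p.2‖) atTop (𝓝 2) →
    ∀ f : Y →L[ℝ] ℝ, CauchySeq (fun n => F n f)

end Pool.Agent.P.MP_d4a912_an.Gen
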