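import Pool.Agent.P.MP_d4a912_an.Gen.Defs

set_option autoImplicit false

namespace Pool.Agent.P.MP_d4a912_an.Gen

open Filter Topology Set

/-- The variational principle of Ekeland (text taken from the folder of problem d06606). -/
theorem ekeland {Y : Type*} [MetricSpace Y] [CompleteSpace Y] {C : Set Y} (hC : IsClosed C)
    {φ : Y → ℝ} (hφ : Continuous φ) {B : ℝ} (hB : ∀ y ∈ C, φ y ≤ B) {ε : ℝ} (hε : 0 < ε)
    {x₀ : Y} (h₀ : x₀ ∈ C) : ∃ x ∈ C, ∀ y ∈ C, φ y ≤ φ x + ε * dist x y := by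
  set S : Y → Set Y := fun x => C ∩ {y | φ x + ε * dist x y ≤ φ y} with hS
  have hcl : ∀ x, IsClosed (S x) := fun x => hC.inter (isClosed_le (by fun_prop) hφ)
  have htr : ∀ x y, y ∈ S x → S y ⊆ S x := fun x y hy z hz => ⟨hz.1, by
    have h1 : φ x + ε * dist x y ≤ φ y := hy.2
    have h2 : φ y + ε * dist y z ≤ φ z := hz.2
    have h3 := mul_le_mul_of_nonneg_left (dist_triangle x y z) hε.le
    show φ x + ε * dist x z ≤ φ z
    linarith⟩
  have hself : ∀ x ∈ C, x ∈ S x := fun x hx => ⟨hx, by simp⟩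
  have step : ∀ (n : ℕ) (x : C), ∃ y : C, y.1 ∈ S x ∧
      ∀ z ∈ S y, dist y.1 z ≤ (1 / 2) ^ n := by
    intro n x
    have hb : BddAbove (φ '' S x) := ⟨B, by rintro _ ⟨y, hy, rfl⟩; exact hB y hy.1⟩
    obtain ⟨_, ⟨y, hy, rfl⟩, h⟩ := exists_lt_of_lt_csSup (s := φ '' S x)
      ⟨_, x, hself x x.2, rfl⟩ (show sSup (φ '' S x) - ε * (1 / 2) ^ n < sSup (φ '' S x) by
        have : 0 < ε * (1 / 2) ^ n := by positivity
        linarith)
    refine ⟨⟨y, hy.1⟩, hy, fun z hz => ?_⟩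
    have h1 : φ z ≤ sSup (φ '' S x) := le_csSup hb ⟨z, htr _ _ hy hz, rfl⟩
    have h2 : φ y + ε * dist y z ≤ φ z := hz.2
    exact le_of_mul_le_mul_left (by linarith) hε
  choose f hf1 hf2 using step
  let u : ℕ → C := fun n => Nat.rec ⟨x₀, h₀⟩ f n
  have hu : ∀ n, u (n + 1) = f n (u n) := fun _ => rfl
  have hmem : ∀ n m, (u (n + m)).1 ∈ S (u n).1 := by
    intro n m
    induction m with
    | zero => exact hself _ (u n).2
    | succ m ih => exact htr _ _ ih (hf1 (n + m) (u (n + m)))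
  have hcau : CauchySeq fun n => (u (n + 1)).1 :=
    cauchySeq_of_le_geometric (1 / 2) 1 (by norm_num) fun n => by
      rw [one_mul]
      exact hf2 n (u n) _ (hmem (n + 1) 1)
  obtain ⟨x, hx⟩ := cauchySeq_tendsto_of_complete hcau
  have hxS : ∀ n, x ∈ S (u n).1 := fun n => (hcl _).mem_of_tendsto hx (by
    filter_upwards [eventually_ge_atTop n] with m hm
    have := hmem n (m + 1 - n)
    rwa [show n + (m + 1 - n) = m + 1 by omega] at this)
  refine ⟨x, (hxS 0).1, fun y hy => ?_⟩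
  by_contra hc
  have hyS : y ∈ S x := ⟨hy, (not_le.1 hc).le⟩
  have h1 : Tendsto (fun n => (u (n + 1)).1) atTop (𝓝 y) := by
    rw [tendsto_iff_dist_tendsto_zero]
    exact squeeze_zero (fun _ => dist_nonneg)
      (fun n => hf2 n (u n) y (htr _ _ (hxS (n + 1)) hyS))
      (tendsto_pow_atTop_nhds_zero_of_lt_one (by norm_num) (by norm_num))
  rw [tendsto_nhds_unique hx h1] at hc
  simp at hc

/-- The theorem of Bishop and Phelps. -/
theorem bishop_phelps {Z : Type*} [NormedAddCommGroup Z] [NormedSpace ℝ Z] [CompleteSpace Z]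
    (F : Z →L[ℝ] ℝ) {ε : ℝ} (hε : 0 < ε) :
    ∃ G : Z →L[ℝ] ℝ, ‖F - G‖ ≤ ε ∧ ∃ z : Z, ‖z‖ ≤ 1 ∧ G z = ‖G‖ := by
  obtain ⟨z0, hz0, hE⟩ := ekeland (C := Metric.closedBall (0 : Z) 1) Metric.isClosed_closedBall
    F.continuous (B := ‖F‖) (fun y hy => by
      have h1 : ‖y‖ ≤ 1 := by simpa using hy
      have h2 := F.le_opNorm y
      have h3 := mul_le_mul_of_nonneg_left h1 (norm_nonneg F)
      have h4 := le_abs_self (F y)
      rw [Real.norm_eq_abs] at h2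
      linarith) hε (x₀ := 0) (by simp)
  have hz1 : ‖z0‖ ≤ 1 := by simpa using hz0
  have hs1 : Convex ℝ {p : Z × ℝ | ε * ‖p.1‖ < p.2} := by
    intro p hp q hq a b ha hb hab
    have hp' : ε * ‖p.1‖ < p.2 := hp
    have hq' : ε * ‖q.1‖ < q.2 := hq
    show ε * ‖a • p.1 + b • q.1‖ < a * p.2 + b * q.2
    have h1 : ‖a • p.1 + b • q.1‖ ≤ a * ‖p.1‖ + b * ‖q.1‖ := by
      refine le_trans (norm_add_le _ _) ?_
      rw [norm_smul, norm_smul, Real.norm_of_nonneg ha, Real.norm_of_nonneg hb]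
    have h2 := mul_le_mul_of_nonneg_left h1 hε.le
    have h3 := mul_le_mul_of_nonneg_left hp'.le ha
    have h4 := mul_le_mul_of_nonneg_left hq'.le hb
    rcases eq_or_lt_of_le ha with h | h
    · have hb1 : b = 1 := by linarith
      subst h
      subst hb1
      simpa using hq'
    · have h5 := mul_lt_mul_of_pos_left hp' h
      nlinarith
  have hs2 : IsOpen {p : Z × ℝ | ε * ‖p.1‖ < p.2} := isOpen_lt (by fun_prop) (by fun_prop)
  have ht1 : Convex ℝ {p : Z × ℝ | ‖p.1 + z0‖ ≤ 1 ∧ p.2 ≤ F p.1} := by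
    intro p hp q hq a b ha hb hab
    refine ⟨?_, ?_⟩
    · show ‖a • p.1 + b • q.1 + z0‖ ≤ 1
      have e : a • p.1 + b • q.1 + z0 = a • (p.1 + z0) + b • (q.1 + z0) := by
        have : z0 = a • z0 + b • z0 := by rw [← add_smul, hab, one_smul]
        rw [smul_add, smul_add]
        nth_rewrite 1 [this]
        abel
      rw [e]
      refine le_trans (norm_add_le _ _) ?_
      rw [norm_smul, norm_smul, Real.norm_of_nonneg ha, Real.norm_of_nonneg hb]
      nlinarith [hp.1, hq.1]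
    · show a * p.2 + b * q.2 ≤ F (a • p.1 + b • q.1)
      rw [map_add, map_smul, map_smul, smul_eq_mul, smul_eq_mul]
      nlinarith [hp.2, hq.2]
  have hd : Disjoint {p : Z × ℝ | ε * ‖p.1‖ < p.2} {p : Z × ℝ | ‖p.1 + z0‖ ≤ 1 ∧ p.2 ≤ F p.1} := by
    rw [Set.disjoint_left]
    intro p hp hq
    have hp' : ε * ‖p.1‖ < p.2 := hp
    have h1 := hE (p.1 + z0) (by simpa using hq.1)
    rw [map_add, dist_eq_norm, show z0 - (p.1 + z0) = -p.1 by abel, norm_neg] at h1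
    linarith [hq.2]
  obtain ⟨L, v, hL1, hL2⟩ := geometric_hahn_banach_open hs1 hs2 ht1 hd
  set κ : ℝ := L (0, 1) with hκ
  set K : Z →L[ℝ] ℝ := L.comp (ContinuousLinearMap.inl ℝ Z ℝ) with hK
  have hLe : ∀ (w : Z) (r : ℝ), L (w, r) = K w + r * κ := by
    intro w r
    have e : ((w, r) : Z × ℝ) = (w, 0) + r • (0, 1) := by simp
    rw [e, map_add, map_smul, smul_eq_mul]
    rfl
  have hv0 : v ≤ 0 := by
    have := hL2 (0, 0) ⟨by simpa using hz1, by simp⟩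
    rw [hLe] at this
    simpa using this
  have hκ0 : κ < 0 := by
    have := hL1 (0, 1) (by show ε * ‖(0 : Z)‖ < 1; simp)
    linarith
  have hv1 : 0 ≤ v := by
    by_contra h
    push Not at h
    have h2 : 0 < v / κ := div_pos_of_neg_of_neg h hκ0
    have := hL1 (0, v / κ) (by show ε * ‖(0 : Z)‖ < v / κ; simpa using h2)
    rw [hLe, map_zero, zero_add, div_mul_cancel₀ _ hκ0.ne] at this
    exact lt_irrefl _ this
  have hKle : ∀ w : Z, K w ≤ -κ * (ε * ‖w‖) := by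
    intro w
    refine le_of_forall_pos_le_add (fun δ hδ => ?_)
    have h2 : 0 < δ / (-κ) := div_pos hδ (by linarith)
    have := hL1 (w, ε * ‖w‖ + δ / (-κ)) (by show ε * ‖w‖ < ε * ‖w‖ + δ / (-κ); linarith)
    rw [hLe] at this
    have e : δ / (-κ) * κ = -δ := by field_simp [hκ0.ne]
    nlinarith
  have hK' : ‖(-κ)⁻¹ • K‖ ≤ ε := by
    refine ContinuousLinearMap.opNorm_le_bound _ hε.le (fun w => ?_)
    have hk : 0 < -κ := by linarith
    rw [smul_apply, smul_eq_mul, Real.norm_eq_abs, abs_mul,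
      abs_of_pos (inv_pos.mpr hk), inv_mul_le_iff₀ hk, abs_le]
    have h1 := hKle w
    have h2 := hKle (-w)
    rw [map_neg, norm_neg] at h2
    constructor <;> linarith
  have hmax : ∀ z : Z, ‖z‖ ≤ 1 → (F - (-κ)⁻¹ • K) z ≤ (F - (-κ)⁻¹ • K) z0 := by
    intro z hz
    have hk : 0 < -κ := by linarith
    have h1 := hL2 (z - z0, F (z - z0)) ⟨by simpa using hz, le_refl _⟩
    rw [hLe] at h1
    have h2 : F (z - z0) ≤ (-κ)⁻¹ * K (z - z0) := by
      rw [le_inv_mul_iff₀ hk]; linarith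
    rw [map_sub, map_sub] at h2
    simp only [sub_apply, smul_apply, smul_eq_mul]
    linarith
  refine ⟨F - (-κ)⁻¹ • K, by simpa using hK', z0, hz1, le_antisymm ?_ ?_⟩
  · have h2 := (F - (-κ)⁻¹ • K).le_opNorm z0
    have h3 := mul_le_mul_of_nonneg_left hz1 (norm_nonneg (F - (-κ)⁻¹ • K))
    have h4 := le_abs_self ((F - (-κ)⁻¹ • K) z0)
    rw [Real.norm_eq_abs] at h2
    linarith
  · have h0 := hmax 0 (by simp)
    rw [map_zero] at h0
    refine ContinuousLinearMap.opNorm_le_of_unit_norm h0 (fun w hw => ?_)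
    have h1 := hmax w hw.le
    have h2 := hmax (-w) (by rw [norm_neg]; exact hw.le)
    rw [map_neg] at h2
    rw [Real.norm_eq_abs, abs_le]
    constructor <;> linarith

/-- The approximate form of the lemma of Helly. -/
theorem helly {Z : Type*} [NormedAddCommGroup Z] [NormedSpace ℝ Z]
    (Φ : (Z →L[ℝ] ℝ) →L[ℝ] ℝ) (s : Finset (Z →L[ℝ] ℝ)) {ε : ℝ} (hε : 0 < ε) :
    ∃ z : Z, ‖z‖ ≤ ‖Φ‖ ∧ ∀ f ∈ s, |f z - Φ f| < ε := by
  classical
  let A : Z →L[ℝ] (s → ℝ) := ContinuousLinearMap.pi (fun i : s => (i : Z →L[ℝ] ℝ))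
  let v : s → ℝ := fun i => Φ i
  have hv : v ∈ closure (A '' Metric.closedBall 0 ‖Φ‖) := by
    by_contra hc
    obtain ⟨L, w, h1, h2⟩ := geometric_hahn_banach_closed_point
      (((convex_closedBall (0 : Z) ‖Φ‖).linear_image (A : Z →ₗ[ℝ] (s → ℝ))).closure)
      isClosed_closure hc
    have hL : ∀ a : s → ℝ, L a = ∑ i, a i * L (fun j => if i = j then 1 else 0) := by
      intro a
      have := LinearMap.pi_apply_eq_sum_univ (L : (s → ℝ) →ₗ[ℝ] ℝ) a
      simpa [smul_eq_mul] using this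
    set ψ : Z →L[ℝ] ℝ := ∑ i : s, L (fun j => if i = j then 1 else 0) • (i : Z →L[ℝ] ℝ) with hψ
    have e1 : ∀ z, ψ z = L (A z) := by
      intro z
      rw [hL, hψ, sum_apply]
      refine Finset.sum_congr rfl (fun i _ => ?_)
      rw [smul_apply, smul_eq_mul, mul_comm]
      rfl
    have e2 : Φ ψ = L v := by
      rw [hL, hψ, map_sum]
      refine Finset.sum_congr rfl (fun i _ => ?_)
      rw [map_smul, smul_eq_mul, mul_comm]
    have h3 : ∀ z : Z, ‖z‖ ≤ ‖Φ‖ → ψ z < w := by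
      intro z hz
      rw [e1]
      exact h1 _ (subset_closure ⟨z, by simpa using hz, rfl⟩)
    have hΦ : 0 ≤ ‖Φ‖ := ContinuousLinearMap.opNorm_nonneg Φ
    have h0 := h3 0 (by rw [norm_zero]; exact hΦ)
    rw [map_zero] at h0
    have h4 : ‖‖Φ‖ • ψ‖ ≤ w := by
      refine ContinuousLinearMap.opNorm_le_of_unit_norm h0.le (fun z hz => ?_)
      have hn : ‖‖Φ‖ • z‖ ≤ ‖Φ‖ := by rw [norm_smul, hz, mul_one, Real.norm_of_nonneg hΦ]
      have a1 := h3 _ hn
      have a2 := h3 (-(‖Φ‖ • z)) (by rwa [norm_neg])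
      rw [map_neg] at a2
      rw [map_smul] at a1 a2
      rw [smul_apply, Real.norm_eq_abs, abs_le]
      constructor <;> linarith
    rw [norm_smul, Real.norm_of_nonneg hΦ] at h4
    have h5 := Φ.le_opNorm ψ
    have h6 := le_abs_self (Φ ψ)
    rw [Real.norm_eq_abs] at h5
    linarith
  obtain ⟨_, ⟨z, hz, rfl⟩, hd⟩ := Metric.mem_closure_iff.mp hv ε hε
  refine ⟨z, by simpa using hz, fun f hf => ?_⟩
  have := (dist_pi_lt_iff hε).mp hd ⟨f, hf⟩
  rw [Real.dist_eq, abs_sub_comm] at this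
  exact this

/-- Rotundity along the unit sphere extends to sequences whose norms converge. -/
theorem cr_scale {W : Type*} [NormedAddCommGroup W] [NormedSpace ℝ W] (φ : W →L[ℝ] ℝ)
    (h : ∀ x : ℕ → W, (∀ n, ‖x n‖ = 1) →
      Tendsto (fun p : ℕ × ℕ => ‖x p.1 + x p.2‖) atTop (𝓝 2) → CauchySeq (fun n => φ (x n)))
    (y : ℕ → W) (s : ℝ) (hs : 0 < s) (h1 : Tendsto (fun n => ‖y n‖) atTop (𝓝 s))
    (h2 : Tendsto (fun p : ℕ × ℕ => ‖y p.1 + y p.2‖) atTop (𝓝 (2 * s))) :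
    CauchySeq (fun n => φ (y n)) := by
  obtain ⟨N, hN⟩ := eventually_atTop.mp (h1.eventually (lt_mem_nhds hs))
  have hpos : ∀ n, 0 < ‖y (n + N)‖ := fun n => hN _ (by omega)
  have h1' : Tendsto (fun n => ‖y (n + N)‖) atTop (𝓝 s) := h1.comp (tendsto_add_atTop_nat N)
  have hsh : Tendsto (fun p : ℕ × ℕ => (p.1 + N, p.2 + N)) atTop atTop := by
    rw [← prod_atTop_atTop_eq]
    exact ((tendsto_add_atTop_nat N).comp tendsto_fst).prodMk
      ((tendsto_add_atTop_nat N).comp tendsto_snd)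
  have h2' : Tendsto (fun p : ℕ × ℕ => ‖y (p.1 + N) + y (p.2 + N)‖) atTop (𝓝 (2 * s)) :=
    h2.comp hsh
  let x : ℕ → W := fun n => ‖y (n + N)‖⁻¹ • y (n + N)
  have hx1 : ∀ n, ‖x n‖ = 1 := by
    intro n
    show ‖‖y (n + N)‖⁻¹ • y (n + N)‖ = 1
    rw [norm_smul, norm_inv, norm_norm, inv_mul_cancel₀ (hpos n).ne']
  have hd : ∀ n, ‖s⁻¹ • y (n + N) - x n‖ = |s⁻¹ * ‖y (n + N)‖ - 1| := by
    intro n
    have e : s⁻¹ • y (n + N) - x n = (s⁻¹ * ‖y (n + N)‖ - 1) • x n := by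
      show s⁻¹ • y (n + N) - x n = (s⁻¹ * ‖y (n + N)‖ - 1) • (‖y (n + N)‖⁻¹ • y (n + N))
      rw [sub_smul, one_smul, smul_smul, mul_assoc, mul_inv_cancel₀ (hpos n).ne', mul_one]
    rw [e, norm_smul, hx1, mul_one, Real.norm_eq_abs]
  have hd0 : Tendsto (fun n => |s⁻¹ * ‖y (n + N)‖ - 1|) atTop (𝓝 0) := by
    have := ((h1'.const_mul s⁻¹).sub_const 1).abs
    rwa [inv_mul_cancel₀ hs.ne', sub_self, abs_zero] at this
  have hx2 : Tendsto (fun p : ℕ × ℕ => ‖x p.1 + x p.2‖) atTop (𝓝 2) := by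
    have a1 : Tendsto (fun p : ℕ × ℕ => |s⁻¹ * ‖y (p.1 + N)‖ - 1| + |s⁻¹ * ‖y (p.2 + N)‖ - 1|)
        atTop (𝓝 (0 + 0)) := by
      rw [← prod_atTop_atTop_eq]
      exact (hd0.comp tendsto_fst).add (hd0.comp tendsto_snd)
    have a2 := (h2'.const_mul s⁻¹).sub a1
    have e : s⁻¹ * (2 * s) - (0 + 0) = 2 := by field_simp; ring
    rw [e] at a2
    refine tendsto_of_tendsto_of_tendsto_of_le_of_le a2 tendsto_const_nhds (fun p => ?_)
      (fun p => ?_)
    · have e2 : s⁻¹ • (y (p.1 + N) + y (p.2 + N)) = (x p.1 + x p.2) +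
          ((s⁻¹ • y (p.1 + N) - x p.1) + (s⁻¹ • y (p.2 + N) - x p.2)) := by
        rw [smul_add]; abel
      have b1 := norm_add_le (x p.1 + x p.2)
        ((s⁻¹ • y (p.1 + N) - x p.1) + (s⁻¹ • y (p.2 + N) - x p.2))
      have b2 := norm_add_le (s⁻¹ • y (p.1 + N) - x p.1) (s⁻¹ • y (p.2 + N) - x p.2)
      rw [← e2, norm_smul, Real.norm_of_nonneg (inv_pos.mpr hs).le] at b1
      rw [hd, hd] at b2
      show s⁻¹ * ‖y (p.1 + N) + y (p.2 + N)‖ - _ ≤ ‖x p.1 + x p.2‖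
      linarith
    · have := norm_add_le (x p.1) (x p.2)
      rw [hx1, hx1, one_add_one_eq_two] at this
      exact this
  obtain ⟨L, hL⟩ := cauchySeq_tendsto_of_complete (h x hx1 hx2)
  have h3 : Tendsto (fun n => φ (y (n + N))) atTop (𝓝 (s * L)) := by
    refine (h1'.mul hL).congr (fun n => ?_)
    show ‖y (n + N)‖ * φ (‖y (n + N)‖⁻¹ • y (n + N)) = _
    rw [map_smul, smul_eq_mul, ← mul_assoc, mul_inv_cancel₀ (hpos n).ne', one_mul]
  exact ((tendsto_add_atTop_iff_nat (f := fun n => φ (y n)) N).mp h3).cauchySeq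

/-- A bounded weakly Cauchy sequence has a weak-star limit in the bidual. -/
theorem exists_limit {X : Type*} [NormedAddCommGroup X] [NormedSpace ℝ X]
    (u : ℕ → X) (ρ : ℝ) (hρ : 0 ≤ ρ) (hu : ∀ᶠ n in atTop, ‖u n‖ ≤ ρ)
    (hc : ∀ f : X →L[ℝ] ℝ, CauchySeq (fun n => f (u n))) :
    ∃ F : (X →L[ℝ] ℝ) →L[ℝ] ℝ, ‖F‖ ≤ ρ ∧
      ∀ f : X →L[ℝ] ℝ, Tendsto (fun n => f (u n)) atTop (𝓝 (F f)) := by
  choose L hL using fun f : X →L[ℝ] ℝ => cauchySeq_tendsto_of_complete (hc f)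
  let F0 : (X →L[ℝ] ℝ) →ₗ[ℝ] ℝ :=
    { toFun := L
      map_add' := fun f g => tendsto_nhds_unique (hL (f + g)) ((hL f).add (hL g))
      map_smul' := fun a f => tendsto_nhds_unique (hL (a • f)) ((hL f).const_smul a) }
  have hb : ∀ f, ‖F0 f‖ ≤ ρ * ‖f‖ := by
    intro f
    refine le_of_tendsto (hL f).norm ?_
    filter_upwards [hu] with n hn
    refine le_trans (f.le_opNorm _) ?_
    rw [mul_comm]
    exact mul_le_mul_of_nonneg_right hn (norm_nonneg _)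
  exact ⟨F0.mkContinuous ρ hb, LinearMap.mkContinuous_norm_le _ hρ _, hL⟩

end Pool.Agent.P.MP_d4a912_an.Gen
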