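import Pool.Agent.P.MP_d4a912_an.Gen.FA
import Pool.Agent.P.MP_d4a912_an.Norm

set_option autoImplicit false

namespace Pool.Agent.P.MP_d4a912_an.Gen

open Filter Topology

universe u

/-- A sequence of functionals of norm at most one. -/
structure Fam (X : Type u) [NormedAddCommGroup X] [NormedSpace ℝ X] where
  φ : ℕ → X →L[ℝ] ℝ
  le : ∀ j x, |φ j x| ≤ ‖x‖

namespace Fam

variable {X : Type u} [NormedAddCommGroup X] [NormedSpace ℝ X] (S : Fam X)

/-- The Hilbertian part. -/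
noncomputable def H (x : X) : ℝ := ∑' j, (1 / 2 : ℝ) ^ j * (S.φ j x) ^ 2

/-- The new norm. -/
noncomputable def N (x : X) : ℝ := Real.sqrt (‖x‖ ^ 2 + S.H x)

theorem term_le (x : X) (j : ℕ) :
    (1 / 2 : ℝ) ^ j * (S.φ j x) ^ 2 ≤ (1 / 2 : ℝ) ^ j * ‖x‖ ^ 2 := by
  refine mul_le_mul_of_nonneg_left ?_ (by positivity)
  rw [← sq_abs]
  exact pow_le_pow_left₀ (abs_nonneg _) (S.le j x) 2

theorem summ (x : X) : Summable (fun j => (1 / 2 : ℝ) ^ j * (S.φ j x) ^ 2) :=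
  Summable.of_nonneg_of_le (fun _ => by positivity) (S.term_le x)
    (summable_geometric_two.mul_right _)

theorem H_nonneg (x : X) : 0 ≤ S.H x := tsum_nonneg (fun _ => by positivity)

theorem H_le (x : X) : S.H x ≤ 2 * ‖x‖ ^ 2 := by
  rw [← tsum_geometric_two, ← tsum_mul_right]
  exact (S.summ x).tsum_le_tsum (S.term_le x) (summable_geometric_two.mul_right _)

theorem le_H (x : X) (j : ℕ) : (1 / 2 : ℝ) ^ j * (S.φ j x) ^ 2 ≤ S.H x :=
  (S.summ x).le_tsum j (fun _ _ => by positivity)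

theorem H_par (x y : X) : S.H (x + y) + S.H (x - y) = 2 * S.H x + 2 * S.H y := by
  unfold H
  rw [← (S.summ (x + y)).tsum_add (S.summ (x - y)), ← tsum_mul_left, ← tsum_mul_left,
    ← ((S.summ x).mul_left 2).tsum_add ((S.summ y).mul_left 2)]
  congr 1
  ext j
  rw [map_add, map_sub]; ring

theorem H_smul (a : ℝ) (x : X) : S.H (a • x) = a ^ 2 * S.H x := by
  unfold H
  rw [← tsum_mul_left]
  congr 1
  ext j
  rw [map_smul, smul_eq_mul]; ring

theorem H_add_le (x y : X) (l : ℝ) (hl : 0 < l) :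
    S.H (x + y) ≤ (1 + l) * S.H x + (1 + 1 / l) * S.H y := by
  unfold H
  rw [← tsum_mul_left, ← tsum_mul_left,
    ← ((S.summ x).mul_left _).tsum_add ((S.summ y).mul_left _)]
  refine (S.summ (x + y)).tsum_le_tsum ?_
    (((S.summ x).mul_left _).add ((S.summ y).mul_left _))
  intro j
  rw [map_add]
  have := mul_le_mul_of_nonneg_left (sq_add_le (S.φ j x) (S.φ j y) l hl)
    (show 0 ≤ (1 / 2 : ℝ) ^ j by positivity)
  linarith

theorem N_nonneg (x : X) : 0 ≤ S.N x := Real.sqrt_nonneg _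

theorem N_sq (x : X) : S.N x ^ 2 = ‖x‖ ^ 2 + S.H x :=
  Real.sq_sqrt (add_nonneg (sq_nonneg _) (S.H_nonneg x))

theorem N_smul (a : ℝ) (x : X) : S.N (a • x) = |a| * S.N x := by
  unfold N
  rw [H_smul, norm_smul, mul_pow, Real.norm_eq_abs, sq_abs, ← mul_add,
    Real.sqrt_mul (sq_nonneg a), Real.sqrt_sq_eq_abs]

theorem norm_le_N (x : X) : ‖x‖ ≤ 1 * S.N x := by
  rw [one_mul]
  apply Real.le_sqrt_of_sq_le
  linarith [S.H_nonneg x]

theorem N_le_norm (x : X) : S.N x ≤ 2 * ‖x‖ := by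
  apply Real.sqrt_le_iff.mpr
  refine ⟨by positivity, ?_⟩
  nlinarith [S.H_le x, sq_nonneg ‖x‖]

theorem N_eq_zero (x : X) : S.N x = 0 ↔ x = 0 := by
  constructor
  · intro h
    have := S.norm_le_N x
    rw [h, mul_zero] at this
    exact norm_le_zero_iff.mp this
  · rintro rfl
    have := S.N_le_norm 0
    rw [norm_zero, mul_zero] at this
    exact le_antisymm this (S.N_nonneg _)

theorem N_add_le (x y : X) : S.N (x + y) ≤ S.N x + S.N y := by
  by_cases hx : x = 0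
  · subst hx
    rw [zero_add]
    linarith [S.N_nonneg 0]
  by_cases hy : y = 0
  · subst hy
    rw [add_zero]
    linarith [S.N_nonneg 0]
  have hx' : 0 < S.N x := lt_of_le_of_ne (S.N_nonneg x) (fun h => hx ((S.N_eq_zero x).mp h.symm))
  have hy' : 0 < S.N y := lt_of_le_of_ne (S.N_nonneg y) (fun h => hy ((S.N_eq_zero y).mp h.symm))
  have hl : 0 < S.N y / S.N x := div_pos hy' hx'
  have h1 := S.H_add_le x y _ hl
  have h2 : ‖x + y‖ ^ 2 ≤ (‖x‖ + ‖y‖) ^ 2 := pow_le_pow_left₀ (norm_nonneg _) (norm_add_le _ _) 2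
  have h2' := sq_add_le ‖x‖ ‖y‖ _ hl
  have h3 : S.N (x + y) ^ 2 ≤
      (1 + S.N y / S.N x) * S.N x ^ 2 + (1 + 1 / (S.N y / S.N x)) * S.N y ^ 2 := by
    rw [N_sq, N_sq, N_sq]; linarith
  have h4 : (1 + S.N y / S.N x) * S.N x ^ 2 + (1 + 1 / (S.N y / S.N x)) * S.N y ^ 2
      = (S.N x + S.N y) ^ 2 := by
    field_simp; ring
  rw [h4] at h3
  exact (pow_le_pow_iff_left₀ (S.N_nonneg _) (by positivity) (by norm_num)).mp h3

/-- The renormed space. -/
def Ren (_S : Fam X) : Type u := X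

noncomputable instance : AddCommGroup S.Ren := inferInstanceAs (AddCommGroup X)
noncomputable instance : Module ℝ S.Ren := inferInstanceAs (Module ℝ X)

/-- The identity, as a linear equivalence. -/
def toX : S.Ren ≃ₗ[ℝ] X := LinearEquiv.refl ℝ X

noncomputable instance : Norm S.Ren := ⟨fun x => S.N (S.toX x)⟩

theorem core : NormedSpace.Core ℝ S.Ren where
  norm_nonneg _ := S.N_nonneg _
  norm_smul a x := S.N_smul a (S.toX x)
  norm_triangle x y := S.N_add_le (S.toX x) (S.toX y)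
  norm_eq_zero_iff x := S.N_eq_zero (S.toX x)

noncomputable instance : NormedAddCommGroup S.Ren := NormedAddCommGroup.ofCore S.core
noncomputable instance : NormedSpace ℝ S.Ren := NormedSpace.ofCore S.core

/-- The identity, as a continuous linear equivalence. -/
noncomputable def toXL : S.Ren ≃L[ℝ] X :=
  S.toX.toContinuousLinearEquivOfBounds 1 2 (fun _ => S.norm_le_N _) (fun y => S.N_le_norm y)

theorem coord (x : ℕ → X) (hx : ∀ n, S.N (x n) = 1)
    (hlim : Tendsto (fun p : ℕ × ℕ => S.N (x p.1 + x p.2)) atTop (𝓝 2)) (j : ℕ) :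
    CauchySeq (fun n => S.φ j (x n)) := by
  rw [Metric.cauchySeq_iff]
  intro ε hε
  have hw : 0 < (1 / 2 : ℝ) ^ j := by positivity
  have hη : 0 < (1 / 2 : ℝ) ^ j * ε ^ 2 := by positivity
  obtain ⟨N, hN⟩ := eventually_atTop.mp ((hlim.pow 2).eventually
    (lt_mem_nhds (show 4 - (1 / 2 : ℝ) ^ j * ε ^ 2 < 2 ^ 2 by linarith)))
  refine ⟨max N.1 N.2, fun n hn m hm => ?_⟩
  have h1 : 4 - (1 / 2 : ℝ) ^ j * ε ^ 2 < S.N (x n + x m) ^ 2 :=
    hN (n, m) ⟨le_trans (le_max_left _ _) hn, le_trans (le_max_right _ _) hm⟩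
  have h2 := S.N_sq (x n)
  have h3 := S.N_sq (x m)
  rw [hx] at h2 h3
  rw [N_sq] at h1
  have h4 := S.H_par (x n) (x m)
  have h5 := pow_le_pow_left₀ (norm_nonneg _) (norm_add_le (x n) (x m)) 2
  have h6 := S.le_H (x n - x m) j
  rw [map_sub] at h6
  have h7 : (1 / 2 : ℝ) ^ j * (S.φ j (x n) - S.φ j (x m)) ^ 2 < (1 / 2 : ℝ) ^ j * ε ^ 2 := by
    nlinarith [sq_nonneg (‖x n‖ - ‖x m‖)]
  rw [Real.dist_eq]
  exact abs_lt_of_sq_lt_sq (lt_of_mul_lt_mul_left h7 hw.le) hε.le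

end Fam

/-- A space with separable dual has an equivalent weakly Cauchy rotund norm. -/
theorem exists_wcr_of_sep (X : Type u) [NormedAddCommGroup X] [NormedSpace ℝ X]
    (h : TopologicalSpace.SeparableSpace (X →L[ℝ] ℝ)) :
    ∃ (Y : Type u) (_ : NormedAddCommGroup Y) (_ : NormedSpace ℝ Y),
      Nonempty (X ≃L[ℝ] Y) ∧ IsWCR Y := by
  obtain ⟨ψ, hψ⟩ := TopologicalSpace.exists_dense_seq (X →L[ℝ] ℝ)
  let S : Fam X := ⟨fun j => (‖ψ j‖ + 1)⁻¹ • ψ j, fun j x => by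
    have h1 := (ψ j).le_opNorm x
    rw [Real.norm_eq_abs] at h1
    rw [smul_apply, smul_eq_mul, abs_mul, abs_of_pos (by positivity),
      inv_mul_le_iff₀ (by positivity)]
    nlinarith [norm_nonneg x]⟩
  refine ⟨S.Ren, inferInstance, inferInstance, ⟨S.toXL.symm⟩, fun x hx hlim f => ?_⟩
  let g : X →L[ℝ] ℝ := f.comp (S.toXL.symm : X →L[ℝ] S.Ren)
  let y : ℕ → X := fun n => S.toX (x n)
  have hy : ∀ n, ‖y n‖ ≤ 1 := fun n => by
    have h1 := S.norm_le_N (y n)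
    have h2 : S.N (y n) = 1 := hx n
    linarith
  show CauchySeq (fun n => g (y n))
  rw [Metric.cauchySeq_iff]
  intro ε hε
  obtain ⟨j, hj⟩ := hψ.exists_dist_lt g (show 0 < ε / 4 by positivity)
  have hp : 0 < ‖ψ j‖ + 1 := by positivity
  obtain ⟨N, hN⟩ := Metric.cauchySeq_iff.mp (S.coord y hx hlim j) ((‖ψ j‖ + 1)⁻¹ * (ε / 2))
    (by positivity)
  refine ⟨N, fun n hn m hm => ?_⟩
  have h1 := hN n hn m hm
  have e : S.φ j (y n) - S.φ j (y m) = (‖ψ j‖ + 1)⁻¹ * (ψ j (y n) - ψ j (y m)) := by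
    show (‖ψ j‖ + 1)⁻¹ * ψ j (y n) - (‖ψ j‖ + 1)⁻¹ * ψ j (y m) = _
    ring
  rw [Real.dist_eq, e, abs_mul, abs_of_pos (inv_pos.mpr hp)] at h1
  have h2 := abs_lt.mp (lt_of_mul_lt_mul_left h1 (inv_pos.mpr hp).le)
  have h3 : ∀ k, |g (y k) - ψ j (y k)| ≤ ε / 4 := by
    intro k
    have a1 := (g - ψ j).le_opNorm (y k)
    rw [sub_apply, Real.norm_eq_abs] at a1
    rw [dist_eq_norm] at hj
    nlinarith [hy k, norm_nonneg (g - ψ j), norm_nonneg (y k)]
  have h4 := abs_le.mp (h3 n)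
  have h5 := abs_le.mp (h3 m)
  rw [Real.dist_eq, abs_lt]
  constructor <;> linarith [h2.1, h2.2, h4.1, h4.2, h5.1, h5.2]

end Pool.Agent.P.MP_d4a912_an.Gen
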