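import Pool.Agent.P.MP_d4a912_an.Gen.Bid
import Pool.Agent.P.MP_d4a912_an.Gen.Sep

set_option autoImplicit false

namespace Pool.Agent.P.MP_d4a912_an.Gen

open Filter Topology

universe u

theorem refl_transfer {X Y : Type u} [NormedAddCommGroup X] [NormedSpace ℝ X]
    [NormedAddCommGroup Y] [NormedSpace ℝ Y] (e : X ≃L[ℝ] Y)
    (h : Function.Surjective (NormedSpace.inclusionInDoubleDual ℝ X)) :
    Function.Surjective (NormedSpace.inclusionInDoubleDual ℝ Y) := by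
  intro G
  let A : (X →L[ℝ] ℝ) →L[ℝ] (Y →L[ℝ] ℝ) :=
    (ContinuousLinearMap.compL ℝ Y X ℝ).flip (e.symm : Y →L[ℝ] X)
  obtain ⟨x, hx⟩ := h (ContinuousLinearMap.comp G A)
  refine ⟨e x, ContinuousLinearMap.ext (fun g => ?_)⟩
  have h1 : A (g.comp (e : X →L[ℝ] Y)) = g := by
    ext y
    show g (e (e.symm y)) = g y
    rw [e.apply_symm_apply]
  have h2 : g (e x) = G (A (g.comp (e : X →L[ℝ] Y))) :=
    congrArg (fun F : (X →L[ℝ] ℝ) →L[ℝ] ℝ => F (g.comp (e : X →L[ℝ] Y))) hx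
  rw [h1] at h2
  exact h2

theorem wstar_of_refl {Y : Type u} [NormedAddCommGroup Y] [NormedSpace ℝ Y]
    (h : Function.Surjective (NormedSpace.inclusionInDoubleDual ℝ Y)) (hY : IsWCR Y) :
    BidualIsWStarCR Y := by
  intro F h1 h2 f
  choose x hx using fun n => h (F n)
  have hn : ∀ y : Y, ‖NormedSpace.inclusionInDoubleDual ℝ Y y‖ = ‖y‖ :=
    fun y => (NormedSpace.inclusionInDoubleDualLi ℝ (E := Y)).norm_map y
  have e : (fun n => F n f) = fun n => f (x n) := by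
    ext n
    rw [← hx n]
    rfl
  rw [e]
  refine hY x (fun n => ?_) (h2.congr (fun p => ?_)) f
  · rw [← hn, hx]; exact h1 n
  · rw [← hn, map_add, hx, hx]

theorem main (X : Type u) [NormedAddCommGroup X] [NormedSpace ℝ X] [CompleteSpace X] :
    (∃ (Y : Type u) (_ : NormedAddCommGroup Y) (_ : NormedSpace ℝ Y),
        Nonempty (X ≃L[ℝ] Y) ∧ IsWCR Y ∧ ¬ BidualIsWStarCR Y) ↔
      (¬ Function.Surjective (NormedSpace.inclusionInDoubleDual ℝ X) ∧
        ∃ (Y : Type u) (_ : NormedAddCommGroup Y) (_ : NormedSpace ℝ Y),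
          Nonempty (X ≃L[ℝ] Y) ∧ IsWCR Y) := by
  constructor
  · rintro ⟨Y, i1, i2, ⟨e⟩, h1, h2⟩
    exact ⟨fun h => h2 (wstar_of_refl (refl_transfer e h) h1), Y, i1, i2, ⟨e⟩, h1⟩
  · rintro ⟨h, Y, i1, i2, ⟨e⟩, h1⟩
    haveI : CompleteSpace Y :=
      (completeSpace_congr (e := e.toLinearEquiv.toEquiv) e.isUniformEmbedding).mp inferInstance
    obtain ⟨T⟩ := exists_JS (X := Y) (fun h' => h (refl_transfer e.symm h'))
    exact ⟨T.sys.Ren, inferInstance, inferInstance, ⟨e.trans T.sys.toXL.symm⟩,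
      T.sys.isWCR h1, T.not_wstar h1⟩

theorem main' (X : Type u) [NormedAddCommGroup X] [NormedSpace ℝ X] [CompleteSpace X] :
    (∃ (Y : Type u) (_ : NormedAddCommGroup Y) (_ : NormedSpace ℝ Y),
        Nonempty (X ≃L[ℝ] Y) ∧ IsWCR Y ∧ ¬ BidualIsWStarCR Y) ↔
      (¬ Function.Surjective (NormedSpace.inclusionInDoubleDual ℝ X) ∧
        (TopologicalSpace.SeparableSpace (X →L[ℝ] ℝ) ∨
          ∃ (Y : Type u) (_ : NormedAddCommGroup Y) (_ : NormedSpace ℝ Y),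
            Nonempty (X ≃L[ℝ] Y) ∧ IsWCR Y)) := by
  rw [main X]
  exact ⟨fun h => ⟨h.1, Or.inr h.2⟩, fun h => ⟨h.1, h.2.elim (exists_wcr_of_sep X) id⟩⟩

end Pool.Agent.P.MP_d4a912_an.Gen
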