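import Pool.Agent.P.MP_d4a912_an.Gen.FA
import Pool.Agent.P.MP_d4a912_an.WCR

set_option autoImplicit false

namespace Pool.Agent.P.MP_d4a912_an.Gen

open Filter Topology

universe u

/-- The data of the renorming: a direction and a bounded family of functionals. -/
structure Sys (X : Type u) [NormedAddCommGroup X] [NormedSpace ℝ X] where
  t : X →L[ℝ] ℝ
  e0 : X
  f : J → X →L[ℝ] ℝ
  C : ℝ
  C_nonneg : 0 ≤ C
  t_e0 : t e0 = 1
  f_e0 : ∀ g, f g e0 = 0
  f_le : ∀ g x, |f g x| ≤ C * ‖x‖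

namespace Sys

variable {X : Type u} [NormedAddCommGroup X] [NormedSpace ℝ X] (S : Sys X)

/-- The limit seminorm of the family. -/
noncomputable def b (x : X) : ℝ := limsup (fun g => |S.f g x|) cofinite

theorem b_le (x : X) (s : ℝ) (h : ∀ᶠ g in cofinite, |S.f g x| ≤ s) : S.b x ≤ s :=
  limsup_le_of_le (isCoboundedUnder_le_of_le cofinite (x := 0) (fun _ => abs_nonneg _)) h

theorem ev_lt (x : X) (s : ℝ) (h : S.b x < s) : ∀ᶠ g in cofinite, |S.f g x| < s :=
  eventually_lt_of_limsup_lt h (isBoundedUnder_of ⟨S.C * ‖x‖, fun g => S.f_le g x⟩)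

theorem b_nonneg (x : X) : 0 ≤ S.b x := by
  by_contra h
  push Not at h
  obtain ⟨g, hg⟩ := (S.ev_lt x 0 h).exists
  linarith [abs_nonneg (S.f g x)]

theorem b_le_norm (x : X) : S.b x ≤ S.C * ‖x‖ :=
  S.b_le x _ (Eventually.of_forall (fun g => S.f_le g x))

theorem b_add (x y : X) : S.b (x + y) ≤ S.b x + S.b y := by
  refine le_of_forall_pos_le_add (fun δ hδ => S.b_le _ _ ?_)
  filter_upwards [S.ev_lt x (S.b x + δ / 2) (by linarith), S.ev_lt y (S.b y + δ / 2) (by linarith)]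
    with g h1 h2
  rw [map_add]
  linarith [abs_add_le (S.f g x) (S.f g y)]

theorem b_smul_le (a : ℝ) (x : X) : S.b (a • x) ≤ |a| * S.b x := by
  refine le_of_forall_pos_le_add (fun δ hδ => S.b_le _ _ ?_)
  have h0 : 0 < δ / (|a| + 1) := by positivity
  filter_upwards [S.ev_lt x (S.b x + δ / (|a| + 1)) (by linarith)] with g h1
  rw [map_smul, smul_eq_mul, abs_mul]
  have h2 := mul_le_mul_of_nonneg_left h1.le (abs_nonneg a)
  have h3 : |a| * (δ / (|a| + 1)) ≤ δ := by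
    rw [← mul_div_assoc, div_le_iff₀ (by positivity)]
    nlinarith
  linarith

theorem b_smul (a : ℝ) (x : X) : S.b (a • x) = |a| * S.b x := by
  refine le_antisymm (S.b_smul_le a x) ?_
  by_cases ha : a = 0
  · rw [ha, abs_zero, zero_mul]; exact S.b_nonneg _
  · have h := S.b_smul_le a⁻¹ (a • x)
    rw [smul_smul, inv_mul_cancel₀ ha, one_smul, abs_inv] at h
    have hp : 0 < |a| := abs_pos.mpr ha
    rwa [le_inv_mul_iff₀ hp] at h

theorem fin (x : X) (a : ℝ) (h : S.b x < a) : {g | a ≤ |S.f g x|}.Finite := by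
  have := S.ev_lt x a h
  rw [Filter.eventually_cofinite] at this
  simpa using this

/-- The projection along the distinguished direction. -/
def pr (x : X) : X := x - S.t x • S.e0

theorem P_add (x y : X) : S.pr (x + y) = S.pr x + S.pr y := by
  unfold pr; rw [map_add, add_smul]; abel

theorem P_smul (a : ℝ) (x : X) : S.pr (a • x) = a • S.pr x := by
  unfold pr; rw [map_smul, smul_sub, smul_smul, smul_eq_mul]

theorem f_P (g : J) (x : X) : S.f g (S.pr x) = S.f g x := by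
  unfold pr; rw [map_sub, map_smul, S.f_e0, smul_zero, sub_zero]

theorem P_le (x : X) : ‖S.pr x‖ ≤ (1 + ‖S.t‖ * ‖S.e0‖) * ‖x‖ := by
  unfold pr
  refine le_trans (norm_sub_le _ _) ?_
  rw [norm_smul]
  have := mul_le_mul_of_nonneg_right (S.t.le_opNorm x) (norm_nonneg S.e0)
  nlinarith

/-- The convexity constants. -/
noncomputable def c : Option (J × J) → ℝ
  | none => 1 / 4
  | some p => cc p.1 p.2

/-- The forms whose supremum enters the norm. -/
noncomputable def Q : Option (J × J) → X → ℝ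
  | none, x => (5 / 4 * S.b x) ^ 2 + 1 / 4 * (S.t x) ^ 2
  | some p, x => (1 + cc p.1 p.2) * ((S.f p.1 x) ^ 2 + (S.f p.2 x) ^ 2) / 2
      + cc p.1 p.2 * (S.t x) ^ 2

/-- The sup part. -/
noncomputable def M (x : X) : ℝ := ⨆ o, S.Q o x

/-- The new norm. -/
noncomputable def N (x : X) : ℝ := Real.sqrt (S.M x + ‖S.pr x‖ ^ 2)

theorem Q_nonneg (o : Option (J × J)) (x : X) : 0 ≤ S.Q o x := by
  rcases o with _ | p
  · simp only [Q]; positivity
  · simp only [Q]
    have := cc_pos p.1 p.2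
    positivity

theorem Q_le (o : Option (J × J)) (x : X) : S.Q o x ≤ (2 * S.C ^ 2 + ‖S.t‖ ^ 2) * ‖x‖ ^ 2 := by
  have ht : (S.t x) ^ 2 ≤ (‖S.t‖ * ‖x‖) ^ 2 := by
    rw [← sq_abs]
    exact pow_le_pow_left₀ (abs_nonneg _) (S.t.le_opNorm x) 2
  have hf : ∀ g, (S.f g x) ^ 2 ≤ (S.C * ‖x‖) ^ 2 := by
    intro g
    rw [← sq_abs]
    exact pow_le_pow_left₀ (abs_nonneg _) (S.f_le g x) 2
  have hb : (S.b x) ^ 2 ≤ (S.C * ‖x‖) ^ 2 := pow_le_pow_left₀ (S.b_nonneg x) (S.b_le_norm x) 2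
  rcases o with _ | p
  · simp only [Q]
    nlinarith [sq_nonneg (S.C * ‖x‖), sq_nonneg (‖S.t‖ * ‖x‖)]
  · simp only [Q]
    have h1 := cc_pos p.1 p.2
    have h2 := cc_le p.1 p.2
    have h3 := hf p.1
    have h4 := hf p.2
    have h5 := mul_le_mul_of_nonneg_right h2 (sq_nonneg (S.t x))
    have h6 := mul_le_mul_of_nonneg_right h2 (sq_nonneg (S.f p.1 x))
    have h7 := mul_le_mul_of_nonneg_right h2 (sq_nonneg (S.f p.2 x))
    nlinarith [sq_nonneg (S.C * ‖x‖), sq_nonneg (‖S.t‖ * ‖x‖)]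

theorem Q_smul (o : Option (J × J)) (a : ℝ) (x : X) : S.Q o (a • x) = a ^ 2 * S.Q o x := by
  rcases o with _ | p
  · simp only [Q]
    rw [S.b_smul, map_smul, smul_eq_mul, ← sq_abs a]
    have : (a * S.t x) ^ 2 = |a| ^ 2 * (S.t x) ^ 2 := by rw [sq_abs]; ring
    rw [this]; ring
  · simp only [Q]
    simp only [map_smul, smul_eq_mul]; ring

theorem Q_add_le (o : Option (J × J)) (x y : X) (l : ℝ) (hl : 0 < l) :
    S.Q o (x + y) ≤ (1 + l) * S.Q o x + (1 + 1 / l) * S.Q o y := by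
  rcases o with _ | p
  · simp only [Q]
    have h1 : (S.b (x + y)) ^ 2 ≤ (S.b x + S.b y) ^ 2 :=
      pow_le_pow_left₀ (S.b_nonneg _) (S.b_add x y) 2
    have h2 := sq_add_le (S.b x) (S.b y) l hl
    have h3 := sq_add_le (S.t x) (S.t y) l hl
    rw [map_add]
    linarith
  · simp only [Q]
    simp only [map_add]
    have hc := cc_pos p.1 p.2
    have a1 := mul_le_mul_of_nonneg_left (sq_add_le (S.f p.1 x) (S.f p.1 y) l hl)
      (show 0 ≤ (1 + cc p.1 p.2) / 2 by positivity)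
    have a2 := mul_le_mul_of_nonneg_left (sq_add_le (S.f p.2 x) (S.f p.2 y) l hl)
      (show 0 ≤ (1 + cc p.1 p.2) / 2 by positivity)
    have a3 := mul_le_mul_of_nonneg_left (sq_add_le (S.t x) (S.t y) l hl) hc.le
    linarith

theorem Q_par (o : Option (J × J)) (x y : X) :
    S.Q o (x + y) + c o * (S.t x - S.t y) ^ 2 ≤ 2 * S.Q o x + 2 * S.Q o y := by
  rcases o with _ | p
  · simp only [Q, c]
    have h1 : (S.b (x + y)) ^ 2 ≤ (S.b x + S.b y) ^ 2 :=
      pow_le_pow_left₀ (S.b_nonneg _) (S.b_add x y) 2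
    rw [map_add]
    nlinarith [sq_nonneg (S.b x - S.b y)]
  · simp only [Q, c]
    simp only [map_add]
    have hc := cc_pos p.1 p.2
    have a1 : 0 ≤ (1 + cc p.1 p.2) * (S.f p.1 x - S.f p.1 y) ^ 2 := by positivity
    have a2 : 0 ≤ (1 + cc p.1 p.2) * (S.f p.2 x - S.f p.2 y) ^ 2 := by positivity
    nlinarith

theorem Q_le_M (o : Option (J × J)) (x : X) : S.Q o x ≤ S.M x :=
  le_ciSup (f := fun o => S.Q o x) ⟨_, by rintro _ ⟨o, rfl⟩; exact S.Q_le o x⟩ o

theorem M_le (x : X) (C : ℝ) (hC : ∀ o, S.Q o x ≤ C) : S.M x ≤ C := ciSup_le hC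

theorem M_nonneg (x : X) : 0 ≤ S.M x := le_trans (S.Q_nonneg none x) (S.Q_le_M _ x)

theorem f_sq_le (x : X) (g : J) : (S.f g x) ^ 2 ≤ S.M x := by
  refine le_trans ?_ (S.Q_le_M (some (g, g)) x)
  simp only [Q]
  have h1 := cc_pos g g
  nlinarith [sq_nonneg (S.f g x), sq_nonneg (S.t x)]

theorem t_sq_le (x : X) : (S.t x) ^ 2 ≤ 4 * S.M x := by
  have := S.Q_le_M none x
  simp only [Q] at this
  nlinarith [sq_nonneg (5 / 4 * S.b x)]

theorem b_sq_le (x : X) : (5 / 4 * S.b x) ^ 2 ≤ S.M x := by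
  have := S.Q_le_M none x
  simp only [Q] at this
  nlinarith [sq_nonneg (S.t x)]

theorem M_smul (a : ℝ) (x : X) : S.M (a • x) = a ^ 2 * S.M x := by
  unfold M
  simp only [Q_smul]
  rw [Real.mul_iSup_of_nonneg (sq_nonneg a)]

theorem M_add_le (x y : X) (l : ℝ) (hl : 0 < l) :
    S.M (x + y) ≤ (1 + l) * S.M x + (1 + 1 / l) * S.M y := by
  apply S.M_le
  intro o
  have h3 := S.Q_add_le o x y l hl
  have h4 := mul_le_mul_of_nonneg_left (S.Q_le_M o x) (show 0 ≤ 1 + l by positivity)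
  have h5 := mul_le_mul_of_nonneg_left (S.Q_le_M o y) (show 0 ≤ 1 + 1 / l by positivity)
  linarith

theorem N_nonneg (x : X) : 0 ≤ S.N x := Real.sqrt_nonneg _

theorem N_sq (x : X) : S.N x ^ 2 = S.M x + ‖S.pr x‖ ^ 2 :=
  Real.sq_sqrt (add_nonneg (S.M_nonneg x) (sq_nonneg _))

theorem N_smul (a : ℝ) (x : X) : S.N (a • x) = |a| * S.N x := by
  unfold N
  rw [M_smul, P_smul, norm_smul, mul_pow, Real.norm_eq_abs, sq_abs, ← mul_add,
    Real.sqrt_mul (sq_nonneg a), Real.sqrt_sq_eq_abs]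

theorem norm_le_N (x : X) : ‖x‖ ≤ (1 + 2 * ‖S.e0‖) * S.N x := by
  have h0 := S.N_nonneg x
  have h1 : ‖S.pr x‖ ≤ S.N x := by
    apply Real.le_sqrt_of_sq_le
    linarith [S.M_nonneg x]
  have h2 : |S.t x| ≤ 2 * S.N x := by
    apply abs_le_of_sq_le_sq' ?_ (by positivity) |> abs_le.mpr
    have := S.N_sq x
    nlinarith [S.t_sq_le x, sq_nonneg ‖S.pr x‖]
  have h3 : x = S.pr x + S.t x • S.e0 := by unfold pr; abel
  have h4 := norm_add_le (S.pr x) (S.t x • S.e0)
  rw [← h3, norm_smul, Real.norm_eq_abs] at h4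
  have h5 := mul_le_mul_of_nonneg_right h2 (norm_nonneg S.e0)
  nlinarith

/-- The constant of the upper estimate. -/
noncomputable def K : ℝ := Real.sqrt (2 * S.C ^ 2 + ‖S.t‖ ^ 2 + (1 + ‖S.t‖ * ‖S.e0‖) ^ 2)

theorem N_le_norm (x : X) : S.N x ≤ S.K * ‖x‖ := by
  unfold N K
  rw [← Real.sqrt_sq (norm_nonneg x), ← Real.sqrt_mul (by positivity)]
  apply Real.sqrt_le_sqrt
  have h1 := S.M_le x _ (fun o => S.Q_le o x)
  have h2 : ‖S.pr x‖ ^ 2 ≤ ((1 + ‖S.t‖ * ‖S.e0‖) * ‖x‖) ^ 2 :=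
    pow_le_pow_left₀ (norm_nonneg _) (S.P_le x) 2
  nlinarith

theorem N_eq_zero (x : X) : S.N x = 0 ↔ x = 0 := by
  constructor
  · intro h
    have := S.norm_le_N x
    rw [h, mul_zero] at this
    exact norm_le_zero_iff.mp this
  · rintro rfl
    have := S.N_le_norm 0
    rw [norm_zero, mul_zero] at this
    exact le_antisymm this (S.N_nonneg _)

theorem N_add_le (x y : X) : S.N (x + y) ≤ S.N x + S.N y := by
  by_cases hx : x = 0
  · subst hx
    rw [zero_add]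
    linarith [S.N_nonneg 0]
  by_cases hy : y = 0
  · subst hy
    rw [add_zero]
    linarith [S.N_nonneg 0]
  have hx' : 0 < S.N x := lt_of_le_of_ne (S.N_nonneg x) (fun h => hx ((S.N_eq_zero x).mp h.symm))
  have hy' : 0 < S.N y := lt_of_le_of_ne (S.N_nonneg y) (fun h => hy ((S.N_eq_zero y).mp h.symm))
  have hl : 0 < S.N y / S.N x := div_pos hy' hx'
  have h1 := S.M_add_le x y _ hl
  have h2 : ‖S.pr (x + y)‖ ^ 2 ≤ (‖S.pr x‖ + ‖S.pr y‖) ^ 2 := by
    rw [S.P_add]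
    exact pow_le_pow_left₀ (norm_nonneg _) (norm_add_le _ _) 2
  have h2' := sq_add_le ‖S.pr x‖ ‖S.pr y‖ _ hl
  have h3 : S.N (x + y) ^ 2 ≤
      (1 + S.N y / S.N x) * S.N x ^ 2 + (1 + 1 / (S.N y / S.N x)) * S.N y ^ 2 := by
    rw [N_sq, N_sq, N_sq]; linarith
  have h4 : (1 + S.N y / S.N x) * S.N x ^ 2 + (1 + 1 / (S.N y / S.N x)) * S.N y ^ 2
      = (S.N x + S.N y) ^ 2 := by
    field_simp; ring
  rw [h4] at h3
  exact (pow_le_pow_iff_left₀ (S.N_nonneg _) (by positivity) (by norm_num)).mp h3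

/-- The renormed space. -/
def Ren (_S : Sys X) : Type u := X

noncomputable instance : AddCommGroup S.Ren := inferInstanceAs (AddCommGroup X)
noncomputable instance : Module ℝ S.Ren := inferInstanceAs (Module ℝ X)

/-- The identity, as a linear equivalence. -/
def toX : S.Ren ≃ₗ[ℝ] X := LinearEquiv.refl ℝ X

noncomputable instance : Norm S.Ren := ⟨fun x => S.N (S.toX x)⟩

theorem core : NormedSpace.Core ℝ S.Ren where
  norm_nonneg _ := S.N_nonneg _
  norm_smul a x := S.N_smul a (S.toX x)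
  norm_triangle x y := S.N_add_le (S.toX x) (S.toX y)
  norm_eq_zero_iff x := S.N_eq_zero (S.toX x)

noncomputable instance : NormedAddCommGroup S.Ren := NormedAddCommGroup.ofCore S.core
noncomputable instance : NormedSpace ℝ S.Ren := NormedSpace.ofCore S.core

theorem norm_Ren (x : S.Ren) : ‖x‖ = S.N (S.toX x) := rfl

/-- The identity, as a continuous linear equivalence. -/
noncomputable def toXL : S.Ren ≃L[ℝ] X :=
  S.toX.toContinuousLinearEquivOfBounds (1 + 2 * ‖S.e0‖) S.K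
    (fun _ => S.norm_le_N _) (fun y => S.N_le_norm y)

end Sys

end Pool.Agent.P.MP_d4a912_an.Gen
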