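import Pool.Agent.P.MP_d4a912_an.Gen.Norm

set_option autoImplicit false

namespace Pool.Agent.P.MP_d4a912_an.Gen

open Filter Topology

universe u

variable {X : Type u} [NormedAddCommGroup X] [NormedSpace ℝ X]

/-- The quadratic form of weak Cauchy rotundity. -/
theorem IsWCR.quad (hX : IsWCR X) (y : ℕ → X)
    (hy : ∀ η : ℝ, 0 < η → ∃ N : ℕ, ∀ n, N ≤ n → ∀ m, N ≤ m →
      2 * ‖y n‖ ^ 2 + 2 * ‖y m‖ ^ 2 - ‖y n + y m‖ ^ 2 < η) :
    (∃ s, Tendsto (fun n => ‖y n‖) atTop (𝓝 s)) ∧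
      ∀ f : X →L[ℝ] ℝ, CauchySeq (fun n => f (y n)) := by
  have hsq : ∀ n m, ‖y n + y m‖ ^ 2 ≤ (‖y n‖ + ‖y m‖) ^ 2 := fun n m =>
    pow_le_pow_left₀ (norm_nonneg _) (norm_add_le _ _) 2
  have hc : CauchySeq (fun n => ‖y n‖) := by
    rw [Metric.cauchySeq_iff]
    intro ε hε
    obtain ⟨N, hN⟩ := hy (ε ^ 2) (by positivity)
    refine ⟨N, fun n hn m hm => ?_⟩
    rw [Real.dist_eq]
    refine abs_lt_of_sq_lt_sq ?_ hε.le
    nlinarith [hN n hn m hm, hsq n m]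
  obtain ⟨s, hs⟩ := cauchySeq_tendsto_of_complete hc
  refine ⟨⟨s, hs⟩, fun f => ?_⟩
  have hs0 : 0 ≤ s := ge_of_tendsto' hs (fun n => norm_nonneg _)
  rcases eq_or_lt_of_le hs0 with h | h
  · subst h
    have h1 : Tendsto y atTop (𝓝 0) := tendsto_zero_iff_norm_tendsto_zero.mpr hs
    exact ((f.continuous.tendsto 0).comp h1).cauchySeq
  · refine cr_scale f (fun x h1 h2 => hX x h1 h2 f) y s h hs ?_
    have hD : Tendsto (fun p : ℕ × ℕ =>
        2 * ‖y p.1‖ ^ 2 + 2 * ‖y p.2‖ ^ 2 - ‖y p.1 + y p.2‖ ^ 2) atTop (𝓝 0) := by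
      rw [Metric.tendsto_atTop]
      intro ε hε
      obtain ⟨N, hN⟩ := hy ε hε
      refine ⟨(N, N), fun p hp => ?_⟩
      rw [Real.dist_eq, sub_zero, abs_lt]
      refine ⟨?_, hN _ hp.1 _ hp.2⟩
      nlinarith [hsq p.1 p.2, sq_nonneg (‖y p.1‖ - ‖y p.2‖)]
    have h1 : Tendsto (fun p : ℕ × ℕ => 2 * ‖y p.1‖ ^ 2 + 2 * ‖y p.2‖ ^ 2) atTop
        (𝓝 (2 * s ^ 2 + 2 * s ^ 2)) := by
      rw [← prod_atTop_atTop_eq]
      exact (((hs.pow 2).const_mul 2).comp tendsto_fst).add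
        (((hs.pow 2).const_mul 2).comp tendsto_snd)
    have h2 := (h1.sub hD).sqrt
    have e : Real.sqrt (2 * s ^ 2 + 2 * s ^ 2 - 0) = 2 * s := by
      rw [show 2 * s ^ 2 + 2 * s ^ 2 - 0 = (2 * s) ^ 2 by ring, Real.sqrt_sq (by positivity)]
    rw [e] at h2
    refine h2.congr (fun p => ?_)
    rw [sub_sub_cancel, Real.sqrt_sq (norm_nonneg _)]

namespace Sys

variable (S : Sys X)

theorem par_key (x y : X) (hx : S.N x = 1) (hy : S.N y = 1) (η : ℝ)
    (h : 4 - η < S.N (x + y) ^ 2) :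
    ∃ o : Option (J × J),
      2 * ‖S.pr x‖ ^ 2 + 2 * ‖S.pr y‖ ^ 2 - ‖S.pr x + S.pr y‖ ^ 2 < η ∧
      c o * (S.t x - S.t y) ^ 2 < η ∧ S.M x - η / 2 < S.Q o x ∧ S.M y - η / 2 < S.Q o y := by
  rw [N_sq, P_add] at h
  obtain ⟨o, ho⟩ := exists_lt_of_lt_ciSup
    (show 4 - η - ‖S.pr x + S.pr y‖ ^ 2 < ⨆ o, S.Q o (x + y) by
      have : S.M (x + y) = ⨆ o, S.Q o (x + y) := rfl
      linarith)
  have hx2 := S.N_sq x
  have hy2 := S.N_sq y
  rw [hx] at hx2
  rw [hy] at hy2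
  have p1 := S.Q_par o x y
  have a1 := S.Q_le_M o x
  have a2 := S.Q_le_M o y
  have a3 : 0 ≤ c o * (S.t x - S.t y) ^ 2 := by
    refine mul_nonneg ?_ (sq_nonneg _)
    rcases o with _ | p
    · simp only [c]; norm_num
    · exact (cc_pos _ _).le
  have a4 : ‖S.pr x + S.pr y‖ ^ 2 ≤ 2 * ‖S.pr x‖ ^ 2 + 2 * ‖S.pr y‖ ^ 2 := by
    have := pow_le_pow_left₀ (norm_nonneg _) (norm_add_le (S.pr x) (S.pr y)) 2
    nlinarith [sq_nonneg (‖S.pr x‖ - ‖S.pr y‖)]
  refine ⟨o, ?_, ?_, ?_, ?_⟩ <;> linarith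

theorem coord_big (x : X) (hx : S.N x = 1) (g k : J) (η : ℝ)
    (h : S.M x - η / 2 < S.Q (some (g, k)) x) : S.M x - η - 10 * cc g k < (S.f g x) ^ 2 := by
  have hx2 := S.N_sq x
  rw [hx] at hx2
  have hM : S.M x ≤ 1 := by nlinarith [sq_nonneg ‖S.pr x‖]
  have b1 := S.f_sq_le x g
  have b2 := S.f_sq_le x k
  have b3 := S.t_sq_le x
  have hc := cc_pos g k
  simp only [Q] at h
  have c1 : cc g k * (S.f g x) ^ 2 ≤ cc g k := by nlinarith
  have c2 : cc g k * (S.f k x) ^ 2 ≤ cc g k := by nlinarith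
  have c3 : cc g k * (S.t x) ^ 2 ≤ 4 * cc g k := by nlinarith
  nlinarith

theorem wcr_aux (hX : IsWCR X) (x : ℕ → X) (hx : ∀ n, S.N (x n) = 1)
    (hlim : Tendsto (fun p : ℕ × ℕ => S.N (x p.1 + x p.2)) atTop (𝓝 2)) :
    (∀ f : X →L[ℝ] ℝ, CauchySeq (fun n => f (S.pr (x n)))) ∧ CauchySeq (fun n => S.t (x n)) := by
  have hev : ∀ η : ℝ, 0 < η → ∃ N : ℕ, ∀ n, N ≤ n → ∀ m, N ≤ m →
      4 - η < S.N (x n + x m) ^ 2 := by
    intro η hη
    have h1 : Tendsto (fun p : ℕ × ℕ => S.N (x p.1 + x p.2) ^ 2) atTop (𝓝 (2 ^ 2)) := hlim.pow 2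
    have h2 := h1.eventually (lt_mem_nhds (show 4 - η < 2 ^ 2 by linarith))
    obtain ⟨N, hN⟩ := eventually_atTop.mp h2
    refine ⟨max N.1 N.2, fun n hn m hm => ?_⟩
    exact hN (n, m) ⟨le_trans (le_max_left _ _) hn, le_trans (le_max_right _ _) hm⟩
  obtain ⟨⟨s, hs⟩, hoff⟩ := hX.quad (fun n => S.pr (x n)) (by
    intro η hη
    obtain ⟨N, hN⟩ := hev η hη
    refine ⟨N, fun n hn m hm => ?_⟩
    obtain ⟨o, h1, -⟩ := S.par_key (x n) (x m) (hx n) (hx m) _ (hN n hn m hm)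
    exact h1)
  refine ⟨hoff, ?_⟩
  by_contra hnc
  have hnc0 := hnc
  have hosc : ∃ δ : ℝ, 0 < δ ∧ ∀ n N : ℕ, ∃ m, N ≤ m ∧ δ ≤ |S.t (x n) - S.t (x m)| := by
    rw [Metric.cauchySeq_iff] at hnc
    push Not at hnc
    obtain ⟨ε, hε, h⟩ := hnc
    refine ⟨ε / 2, by positivity, fun n N => ?_⟩
    obtain ⟨a, ha, b, hb, hab⟩ := h N
    rw [Real.dist_eq] at hab
    by_cases h1 : ε / 2 ≤ |S.t (x n) - S.t (x a)|
    · exact ⟨a, ha, h1⟩
    · refine ⟨b, hb, ?_⟩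
      push Not at h1
      have := abs_sub_le (S.t (x a)) (S.t (x n)) (S.t (x b))
      rw [abs_sub_comm (S.t (x a)) (S.t (x n))] at this
      linarith
  obtain ⟨δ, hδ, hosc⟩ := hosc
  have hYex : ∀ i : J, ∃ y : ℝ, Tendsto (fun n => S.f i (x n)) atTop (𝓝 y) := by
    intro i
    obtain ⟨y, hy⟩ := cauchySeq_tendsto_of_complete (hoff (S.f i))
    exact ⟨y, hy.congr (fun n => S.f_P i (x n))⟩
  choose Y hY using hYex
  have hM1 : ∀ n, S.M (x n) + ‖S.pr (x n)‖ ^ 2 = 1 := by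
    intro n
    rw [← N_sq, hx n]; norm_num
  set r : ℝ := 1 - s ^ 2 with hr
  have hM : Tendsto (fun n => S.M (x n)) atTop (𝓝 r) := by
    have e : (fun n => S.M (x n)) = fun n => 1 - ‖S.pr (x n)‖ ^ 2 := by
      ext n; linarith [hM1 n]
    rw [e]
    exact (hs.pow 2).const_sub 1
  have hrpos : 0 < r := by
    have h0 : 0 ≤ r := ge_of_tendsto' hM (fun n => S.M_nonneg _)
    rcases eq_or_lt_of_le h0 with h | h
    · exfalso
      apply hnc0
      have h1 := (hM.const_mul 4).sqrt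
      rw [← h, mul_zero, Real.sqrt_zero] at h1
      have h2 : Tendsto (fun n => S.t (x n)) atTop (𝓝 0) := by
        refine squeeze_zero_norm (fun n => ?_) h1
        rw [Real.norm_eq_abs]
        exact Real.abs_le_sqrt (S.t_sq_le _)
      exact h2.cauchySeq
    · exact h
  have claim1' : ∀ ε : ℝ, 0 < ε → ε ≤ r / 10 → ∀ P : ℕ,
      ∃ g : J, P < max g.1 g.2 ∧ r - ε ≤ (Y g) ^ 2 := by
    intro ε hε hεr P
    set θ : ℝ := min (ε / 20) (1 / (4 * ((P : ℝ) + 1))) with hθ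
    have hθpos : 0 < θ := lt_min (by positivity) (by positivity)
    set η : ℝ := min (ε / 4) (θ * δ ^ 2) with hη
    have hηpos : 0 < η := lt_min (by positivity) (by positivity)
    obtain ⟨N1, hN1⟩ := hev η hηpos
    obtain ⟨N2, hN2⟩ := eventually_atTop.mp
      ((hM.eventually (lt_mem_nhds (show r - ε / 4 < r by linarith))).and
        (hM.eventually (gt_mem_nhds (show r < r + r / 10 by linarith))))
    set n := max N1 N2 with hn
    set K : Set J := {g | Real.sqrt (r - ε) ≤ |S.f g (x n)|} ∩ {g | P < max g.1 g.2} with hK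
    have hKfin : K.Finite := by
      refine (S.fin (x n) _ ?_).subset Set.inter_subset_left
      apply Real.lt_sqrt_of_sq_lt
      have a1 := S.b_sq_le (x n)
      have a2 := (hN2 n (le_max_right _ _)).2
      nlinarith
    have hfreq : ∀ N : ℕ, ∃ m, N ≤ m ∧ ∃ g ∈ K, r - ε ≤ (S.f g (x m)) ^ 2 := by
      intro N
      obtain ⟨m, hm, hδm⟩ := hosc n (max N n)
      have hm1 : N1 ≤ m := le_trans (le_max_left _ _) (le_trans (le_max_right _ _) hm)
      have hm2 : N2 ≤ m := le_trans (le_max_right _ _) (le_trans (le_max_right _ _) hm)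
      obtain ⟨o, -, h2, h3, h4⟩ := S.par_key (x n) (x m) (hx n) (hx m) η
        (hN1 n (le_max_left _ _) m hm1)
      have hd2 : δ ^ 2 ≤ (S.t (x n) - S.t (x m)) ^ 2 := by
        rw [← sq_abs (S.t (x n) - S.t (x m))]
        exact pow_le_pow_left₀ hδ.le hδm 2
      have hco : 0 < c o := by
        rcases o with _ | p
        · simp only [c]; norm_num
        · exact cc_pos _ _
      have hcθ : c o < θ := by
        have a1 : c o * δ ^ 2 < θ * δ ^ 2 :=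
          lt_of_le_of_lt (mul_le_mul_of_nonneg_left hd2 hco.le)
            (lt_of_lt_of_le h2 (min_le_right _ _))
        exact lt_of_mul_lt_mul_right a1 (sq_nonneg δ)
      rcases o with _ | ⟨g, k⟩
      · exfalso
        have a1 : θ ≤ 1 / (4 * ((P : ℝ) + 1)) := min_le_right _ _
        have a2 : 1 / (4 * ((P : ℝ) + 1)) ≤ 1 / 4 := by
          have : (0 : ℝ) ≤ P := Nat.cast_nonneg _
          apply one_div_le_one_div_of_le <;> linarith
        simp only [c] at hcθ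
        linarith
      simp only [c] at hcθ
      have hc8 : cc g k < ε / 20 := lt_of_lt_of_le hcθ (min_le_left _ _)
      have hcP := lt_mx_of_cc g k P (lt_of_lt_of_le hcθ (min_le_right _ _))
      have hη4 : η ≤ ε / 4 := min_le_left _ _
      have b1 := S.coord_big (x n) (hx n) g k η h3
      have b2 := S.coord_big (x m) (hx m) g k η h4
      have b3 := (hN2 n (le_max_right _ _)).1
      have b4 := (hN2 m hm2).1
      refine ⟨m, le_trans (le_max_left _ _) hm, g, ⟨?_, ?_⟩, by linarith⟩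
      · show Real.sqrt (r - ε) ≤ |S.f g (x n)|
        apply Real.sqrt_le_iff.mpr
        refine ⟨abs_nonneg _, ?_⟩
        rw [sq_abs]
        linarith
      · exact lt_of_lt_of_le hcP (mx_le_max g k)
    by_contra hcon
    push Not at hcon
    have hall : ∀ g ∈ K, ∀ᶠ m in atTop, (S.f g (x m)) ^ 2 < r - ε := fun g hg =>
      ((hY g).pow 2).eventually (gt_mem_nhds (hcon g hg.2))
    obtain ⟨N, hN⟩ := eventually_atTop.mp ((Filter.eventually_all_finite hKfin).mpr hall)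
    obtain ⟨m, hm, g, hg, hgm⟩ := hfreq N
    linarith [hN m hm g hg]
  have claim1 : ∀ ε : ℝ, 0 < ε → ∀ P : ℕ, ∃ g : J, P < max g.1 g.2 ∧ r - ε ≤ (Y g) ^ 2 := by
    intro ε hε P
    obtain ⟨g, h1, h2⟩ := claim1' (min ε (r / 10)) (lt_min hε (by linarith)) (min_le_right _ _) P
    exact ⟨g, h1, by linarith [min_le_left ε (r / 10)]⟩
  have claim2 : ∀ g k : J, (1 + cc g k) * ((Y g) ^ 2 + (Y k) ^ 2) / 2 ≤ r := by
    intro g k
    have h1 : Tendsto (fun n => (1 + cc g k) * ((S.f g (x n)) ^ 2 + (S.f k (x n)) ^ 2) / 2) atTop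
        (𝓝 ((1 + cc g k) * ((Y g) ^ 2 + (Y k) ^ 2) / 2)) :=
      ((((hY g).pow 2).add ((hY k).pow 2)).const_mul _).div_const 2
    refine le_of_tendsto_of_tendsto' h1 hM (fun n => ?_)
    refine le_trans ?_ (S.Q_le_M (some (g, k)) (x n))
    simp only [Q]
    have := cc_pos g k
    have : 0 ≤ cc g k * (S.t (x n)) ^ 2 := by positivity
    linarith
  obtain ⟨P, hP⟩ := comb (fun ε g => r - ε ≤ (Y g) ^ 2)
    (fun ε ε' g h1 h2 => by linarith) claim1
  set c0 : ℝ := 1 / (4 * ((P : ℝ) + 1)) with hc0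
  have hc0pos : 0 < c0 := by positivity
  obtain ⟨g, k, -, -, h1, h2, h3⟩ := hP (c0 * r / 2) (by positivity)
  have h4 := claim2 g k
  have h5 : c0 ≤ cc g k := cc_ge_of_mx g k P h3
  have h6 := cc_le g k
  have h7 : (1 + c0) * ((Y g) ^ 2 + (Y k) ^ 2) / 2 ≤ r := by
    have : c0 * ((Y g) ^ 2 + (Y k) ^ 2) ≤ cc g k * ((Y g) ^ 2 + (Y k) ^ 2) :=
      mul_le_mul_of_nonneg_right h5 (by positivity)
    linarith
  have h8 : (1 + c0) * (2 * (r - c0 * r / 2)) ≤ (1 + c0) * ((Y g) ^ 2 + (Y k) ^ 2) :=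
    mul_le_mul_of_nonneg_left (by linarith) (by positivity)
  have h9 : 0 < c0 * r * (1 - c0) := by
    have : 0 < 1 - c0 := by linarith
    positivity
  nlinarith

theorem isWCR (hX : IsWCR X) : IsWCR S.Ren := by
  intro x hx hlim f
  obtain ⟨h1, h2⟩ := S.wcr_aux hX (fun n => S.toX (x n)) hx hlim
  let g : X →L[ℝ] ℝ := f.comp (S.toXL.symm : X →L[ℝ] S.Ren)
  have e : (fun n => f (x n)) =
      fun n => g (S.pr (S.toX (x n))) + S.t (S.toX (x n)) * g S.e0 := by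
    ext n
    have e1 : f (x n) = g (S.toX (x n)) := rfl
    have e2 : S.toX (x n) = S.pr (S.toX (x n)) + S.t (S.toX (x n)) • S.e0 := by
      unfold pr; abel
    rw [e1, ← smul_eq_mul, ← map_smul, ← map_add, ← e2]
  rw [e]
  obtain ⟨a, ha⟩ := cauchySeq_tendsto_of_complete (h1 g)
  obtain ⟨b, hb⟩ := cauchySeq_tendsto_of_complete h2
  exact (ha.add (hb.mul_const _)).cauchySeq

end Sys

end Pool.Agent.P.MP_d4a912_an.Gen
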